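import Pool.Agent.T9h44.LG.Defs
import Pool.Agent.TH280.LS.Base

/-!
# Plancherel on the plane in the notation of `T9h44.LG` (helper31)
-/

set_option autoImplicit false

namespace Pool.Agent.T9h31.LG

open MeasureTheory Real Pool.Agent.T9h44.LG
open scoped ENNReal ComplexConjugate

lemma ee_eq (x : ℝ) : ee x = Pool.Agent.TH280.LS.e x := rfl

lemma ee_zero : ee 0 = 1 := Pool.Agent.TH280.LS.e_zero

lemma ee_add (x y : ℝ) : ee (x + y) = ee x * ee y := Pool.Agent.TH280.LS.e_add x y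

lemma norm_ee (x : ℝ) : ‖ee x‖ = 1 := Pool.Agent.TH280.LS.norm_e x

lemma enorm_ee (x : ℝ) : ‖ee x‖ₑ = 1 := by
  rw [← ofReal_norm, norm_ee, ENNReal.ofReal_one]

lemma continuous_ee : Continuous ee := Pool.Agent.TH280.LS.continuous_e

lemma measurable_ee : Measurable ee := continuous_ee.measurable

lemma ee_conj (x : ℝ) : conj (ee x) = ee (-x) := Pool.Agent.TH280.LS.e_conj x

/-- Plancherel on the plane -/
theorem planch2 (f : ℝ × ℝ → ℂ) (h1 : Integrable f) (h2 : MemLp f 2) :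
    ∫⁻ z : ℝ × ℝ, ‖∫ ζ : ℝ × ℝ, ee (z.1 * ζ.1 + z.2 * ζ.2) * f ζ‖ₑ ^ 2 =
      ∫⁻ ζ : ℝ × ℝ, ‖f ζ‖ₑ ^ 2 := by
  have mp : MeasurePreserving (MeasurableEquiv.finTwoArrow (α := ℝ)) :=
    volume_preserving_finTwoArrow ℝ
  set T : (Fin 2 → ℝ) ≃ᵐ ℝ × ℝ := MeasurableEquiv.finTwoArrow with hT
  have hf1 : Integrable (fun v => f (T v)) := mp.integrable_comp_of_integrable h1
  have hf2 : MemLp (fun v => f (T v)) 2 := h2.comp_measurePreserving mp
  have h3 := Pool.Agent.TH280.LS.ftm_planch (fun v => f (T v)) hf1 hf2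
  rw [← mp.lintegral_comp_emb T.measurableEmbedding (fun η => ‖f η‖ₑ ^ 2), ← h3]
  rw [← mp.lintegral_comp_emb T.measurableEmbedding]
  refine lintegral_congr fun ξ => ?_
  congr 2
  rw [← mp.integral_comp T.measurableEmbedding]
  refine integral_congr_ae (Filter.Eventually.of_forall fun v => ?_)
  simp only [Fin.sum_univ_two]
  rfl

/-- Plancherel on the plane, the other sign -/
theorem planch2' (f : ℝ × ℝ → ℂ) (h1 : Integrable f) (h2 : MemLp f 2) :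
    ∫⁻ z : ℝ × ℝ, ‖∫ ζ : ℝ × ℝ, ee (-(z.1 * ζ.1 + z.2 * ζ.2)) * f ζ‖ₑ ^ 2 =
      ∫⁻ ζ : ℝ × ℝ, ‖f ζ‖ₑ ^ 2 := by
  rw [← planch2 f h1 h2]
  rw [← (Measure.measurePreserving_neg (volume : Measure (ℝ × ℝ))).lintegral_comp_emb
    (MeasurableEquiv.neg (ℝ × ℝ)).measurableEmbedding
    (fun z => ‖∫ ζ : ℝ × ℝ, ee (z.1 * ζ.1 + z.2 * ζ.2) * f ζ‖ₑ ^ 2)]
  refine lintegral_congr fun x => ?_
  congr 2
  refine integral_congr_ae (Filter.Eventually.of_forall fun ξ => ?_)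
  have : -(x.1 * ξ.1 + x.2 * ξ.2) = (-x).1 * ξ.1 + (-x).2 * ξ.2 := by
    simp only [Prod.fst_neg, Prod.snd_neg]; ring
  simp only [this]

/-- the shape of the powers is `‖·‖ₑ ^ 2` -/
lemma memLp_two_iff {α : Type*} [MeasurableSpace α] {μ : Measure α} {f : α → ℂ}
    (hf : AEStronglyMeasurable f μ) : MemLp f 2 μ ↔ ∫⁻ a, ‖f a‖ₑ ^ 2 ∂μ < ⊤ := by
  constructor
  · intro h
    have := h.2
    rw [eLpNorm_lt_top_iff_lintegral_rpow_enorm_lt_top (by norm_num) (by norm_num)] at this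
    simpa only [ENNReal.toReal_ofNat, ENNReal.rpow_ofNat] using this
  · intro h
    refine ⟨hf, ?_⟩
    rw [eLpNorm_lt_top_iff_lintegral_rpow_enorm_lt_top (by norm_num) (by norm_num)]
    simpa only [ENNReal.toReal_ofNat, ENNReal.rpow_ofNat] using h

lemma Nice.integrable {G : ℝ × ℝ → ℂ} (hG : Nice G) : Integrable G := by
  obtain ⟨hm, ⟨B, hB⟩, r, hr⟩ := hG
  have hs : Function.support G ⊆ Set.Icc (-r) r ×ˢ Set.Icc (-r) r := by
    intro ζ hζ
    obtain ⟨h1, h2⟩ := hr ζ hζ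
    exact ⟨abs_le.1 h1, abs_le.1 h2⟩
  have hms : MeasurableSet (Set.Icc (-r) r ×ˢ Set.Icc (-r) r : Set (ℝ × ℝ)) :=
    measurableSet_Icc.prod measurableSet_Icc
  have hfin : volume (Set.Icc (-r) r ×ˢ Set.Icc (-r) r : Set (ℝ × ℝ)) < ⊤ :=
    (isCompact_Icc.prod isCompact_Icc).measure_lt_top
  rw [← Set.indicator_eq_self.2 hs]
  refine IntegrableOn.integrable_indicator ?_ hms
  exact Measure.integrableOn_of_bounded hfin.ne hm.aestronglyMeasurable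
    (Filter.Eventually.of_forall fun ζ => hB ζ)

lemma Nice.memLp {G : ℝ × ℝ → ℂ} (hG : Nice G) : MemLp G 2 := by
  obtain ⟨hm, ⟨B, hB⟩, r, hr⟩ := hG
  have hi : Integrable G := Nice.integrable ⟨hm, ⟨B, hB⟩, r, hr⟩
  rw [memLp_two_iff hm.aestronglyMeasurable]
  have hb : ∀ ζ, ‖G ζ‖ₑ ^ 2 ≤ ENNReal.ofReal B * ‖G ζ‖ₑ := by
    intro ζ
    rw [pow_two]
    refine mul_le_mul' ?_ le_rfl
    rw [← ofReal_norm]
    exact ENNReal.ofReal_le_ofReal (hB ζ)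
  refine lt_of_le_of_lt (lintegral_mono hb) ?_
  rw [lintegral_const_mul _ hm.enorm]
  exact ENNReal.mul_lt_top ENNReal.ofReal_lt_top hi.2

/-- Plancherel for `Ext` -/
theorem planch_Ext {G : ℝ × ℝ → ℂ} (hG : Nice G) :
    ∫⁻ z : ℝ × ℝ, ‖Ext G z‖ₑ ^ 2 = ∫⁻ ζ : ℝ × ℝ, ‖G ζ‖ₑ ^ 2 :=
  planch2 G (Nice.integrable hG) (Nice.memLp hG)

lemma continuous_int {f : ℝ × ℝ → ℂ} (h1 : Integrable f) :
    Continuous fun z : ℝ × ℝ => ∫ ζ : ℝ × ℝ, ee (z.1 * ζ.1 + z.2 * ζ.2) * f ζ := by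
  refine continuous_of_dominated (bound := fun ζ => ‖f ζ‖) (fun y => ?_)
    (fun y => Filter.Eventually.of_forall fun z => ?_) h1.norm
    (Filter.Eventually.of_forall fun z => ?_)
  · refine AEStronglyMeasurable.mul ?_ h1.aestronglyMeasurable
    exact (continuous_ee.comp (by fun_prop)).aestronglyMeasurable
  · rw [norm_mul, norm_ee, one_mul]
  · exact (continuous_ee.comp (by fun_prop)).mul continuous_const

lemma continuous_Ext {G : ℝ × ℝ → ℂ} (hG : Nice G) : Continuous (Ext G) :=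
  continuous_int (Nice.integrable hG)

lemma norm_Ext_le {G : ℝ × ℝ → ℂ} (z : ℝ × ℝ) : ‖Ext G z‖ ≤ ∫ ζ, ‖G ζ‖ := by
  unfold T9h44.LG.Ext
  refine (norm_integral_le_integral_norm _).trans (le_of_eq ?_)
  refine integral_congr_ae (Filter.Eventually.of_forall fun x => ?_)
  simp only [norm_mul, norm_ee, one_mul]

end Pool.Agent.T9h31.LG
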