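import Pool.Agent.T9h31.LG.Der
import Pool.Agent.T9h44.LG.Spec

/-!
# Cutoffs (helper31)
-/

set_option autoImplicit false

namespace Pool.Agent.T9h31.LG

open MeasureTheory Real Pool.Agent.T9h44.LG
open scoped ENNReal ComplexConjugate ContDiff Topology

noncomputable def bw (w : ℝ) : ℝ := smoothTransition (2 * w - 1) * smoothTransition (3 - w)

noncomputable def bx (x : ℝ) : ℝ := smoothTransition (18 - x) * smoothTransition (18 + x)

noncomputable def beta0 (ζ : ℝ × ℝ) : ℂ := ((bw ζ.1 * bx ζ.2 : ℝ) : ℂ)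

noncomputable def theta (w : ℝ) : ℝ := smoothTransition (4 * w - 1) * w⁻¹

noncomputable def qb (ζ : ℝ × ℝ) : ℝ := ζ.2 ^ 2 * theta ζ.1

noncomputable def qa (ζ : ℝ × ℝ) : ℝ := ζ.2 * theta ζ.1

lemma st_contDiff : ContDiff ℝ (⊤ : ℕ∞) smoothTransition := smoothTransition.contDiff

lemma contDiff_theta : ContDiff ℝ (⊤ : ℕ∞) theta := by
  rw [contDiff_iff_contDiffAt]
  intro w
  rcases lt_or_ge w (1 / 4) with h | h
  · have : theta =ᶠ[𝓝 w] fun _ => 0 := by
      filter_upwards [Iio_mem_nhds h] with x hx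
      unfold theta
      rw [smoothTransition.zero_of_nonpos (by have := Set.mem_Iio.1 hx; linarith), zero_mul]
    exact contDiffAt_const.congr_of_eventuallyEq this
  · unfold theta
    have h0 : w ≠ 0 := by linarith
    refine ContDiffAt.mul ?_ (contDiffAt_inv ℝ h0)
    exact (st_contDiff.comp (by fun_prop)).contDiffAt

lemma theta_eq {w : ℝ} (hw : 1 / 2 ≤ w) : theta w = w⁻¹ := by
  unfold theta
  rw [smoothTransition.one_of_one_le (by linarith), one_mul]

lemma contDiff_qb : ContDiff ℝ (⊤ : ℕ∞) qb := by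
  unfold qb
  exact (contDiff_snd.pow 2).mul (contDiff_theta.comp contDiff_fst)

lemma contDiff_qa : ContDiff ℝ (⊤ : ℕ∞) qa := by
  unfold qa
  exact contDiff_snd.mul (contDiff_theta.comp contDiff_fst)

lemma bw_eq {w : ℝ} (h1 : 1 ≤ w) (h2 : w ≤ 2) : bw w = 1 := by
  unfold bw
  rw [smoothTransition.one_of_one_le (by linarith), smoothTransition.one_of_one_le (by linarith),
    one_mul]

lemma bw_zero {w : ℝ} (h : ¬ (1 / 2 ≤ w ∧ w ≤ 3)) : bw w = 0 := by
  unfold bw
  rw [not_and_or] at h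
  rcases h with h | h
  · rw [smoothTransition.zero_of_nonpos (by linarith), zero_mul]
  · rw [smoothTransition.zero_of_nonpos (x := 3 - w) (by linarith), mul_zero]

lemma bx_eq {x : ℝ} (h : |x| ≤ 17) : bx x = 1 := by
  unfold bx
  rw [abs_le] at h
  rw [smoothTransition.one_of_one_le (by linarith), smoothTransition.one_of_one_le (by linarith),
    one_mul]

lemma bx_zero {x : ℝ} (h : ¬ (-18 ≤ x ∧ x ≤ 18)) : bx x = 0 := by
  unfold bx
  rw [not_and_or] at h
  rcases h with h | h
  · rw [smoothTransition.zero_of_nonpos (x := 18 + x) (by linarith), mul_zero]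
  · rw [smoothTransition.zero_of_nonpos (by linarith), zero_mul]

lemma beta0_eq {ζ : ℝ × ℝ} (h1 : 1 ≤ ζ.1) (h2 : ζ.1 ≤ 2) (h3 : |ζ.2| ≤ 17) : beta0 ζ = 1 := by
  unfold beta0
  rw [bw_eq h1 h2, bx_eq h3]
  simp

lemma test_beta0 : Test beta0 := by
  constructor
  · unfold beta0 bw bx
    refine Complex.ofRealCLM.contDiff.comp (ContDiff.mul (ContDiff.mul ?_ ?_) (ContDiff.mul ?_ ?_))
    · exact st_contDiff.comp (by fun_prop)
    · exact st_contDiff.comp (by fun_prop)
    · exact st_contDiff.comp (by fun_prop)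
    · exact st_contDiff.comp (by fun_prop)
  · refine HasCompactSupport.intro (K := Set.Icc (1 / 2 : ℝ) 3 ×ˢ Set.Icc (-18 : ℝ) 18)
      (isCompact_Icc.prod isCompact_Icc) fun ζ hζ => ?_
    rw [Set.mem_prod, not_and_or] at hζ
    unfold beta0
    rcases hζ with h | h
    · rw [bw_zero h]; simp
    · rw [bx_zero h]; simp

lemma fam0 (Φ : ℝ → ℂ) (q : ℝ × ℝ → ℝ) {β : ℝ × ℝ → ℂ} (hβ : Test β) :
    Fam Φ q 0 (fun l c ζ => Φ (l * q ζ - c) * β ζ) := by
  refine ⟨fun _ => β, fun _ => hβ, fun l c => ?_⟩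
  ext ζ
  simp

lemma iteratedDeriv_ee (k : ℕ) (x : ℝ) :
    iteratedDeriv k ee x = (2 * π * Complex.I) ^ k * ee x := by
  induction k generalizing x with
  | zero => simp
  | succ k ih =>
    rw [iteratedDeriv_succ]
    have h1 : iteratedDeriv k ee = fun x => (2 * π * Complex.I) ^ k * ee x := funext ih
    rw [h1]
    have h2 : HasDerivAt ee (2 * π * Complex.I * ee x) x := by
      have h3 : HasDerivAt (fun t : ℝ => (((2 * π * t : ℝ)) : ℂ) * Complex.I)
          (((2 * π : ℝ) : ℂ) * Complex.I) x := by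
        refine HasDerivAt.mul_const ?_ _
        refine HasDerivAt.ofReal_comp ?_
        simpa using (hasDerivAt_id x).const_mul (2 * π)
      have h4 := h3.cexp
      unfold ee
      refine h4.congr_deriv ?_
      push_cast
      ring
    rw [(h2.const_mul _).deriv, pow_succ]
    ring

lemma contDiff_ee : ContDiff ℝ (⊤ : ℕ∞) ee := by
  unfold ee
  refine ContDiff.cexp (ContDiff.mul ?_ contDiff_const)
  have h : ContDiff ℝ (⊤ : ℕ∞) (fun a : ℝ => 2 * π * a) := contDiff_const.mul contDiff_id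
  exact Complex.ofRealCLM.contDiff.comp h

lemma ee_bdd (k : ℕ) : ∃ M : ℝ, ∀ x, ‖iteratedDeriv k ee x‖ ≤ M := by
  refine ⟨‖(2 * π * Complex.I : ℂ) ^ k‖, fun x => ?_⟩
  rw [iteratedDeriv_ee, norm_mul, norm_ee, mul_one]

/-- `chi` with complex values -/
noncomputable def chc (x : ℝ) : ℂ := ((chi x : ℝ) : ℂ)

lemma chi_zero {x : ℝ} (h : 1 ≤ |x|) : chi x = 0 := by
  unfold chi
  rcases le_abs'.1 h with h | h
  · rw [smoothTransition.zero_of_nonpos (by linarith), smoothTransition.zero_of_nonpos (by linarith),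
      sub_zero]
  · rw [smoothTransition.one_of_one_le (by linarith), smoothTransition.one_of_one_le (by linarith),
      sub_self]

lemma contDiff_chc : ContDiff ℝ (⊤ : ℕ∞) chc := by
  unfold chc chi
  refine Complex.ofRealCLM.contDiff.comp (ContDiff.sub ?_ st_contDiff)
  exact st_contDiff.comp (by fun_prop)

lemma chc_supp (k : ℕ) (x : ℝ) (h : iteratedDeriv k chc x ≠ 0) : |x| ≤ 1 := by
  by_contra hc
  rw [not_le] at hc
  refine h ?_
  have h1 : chc =ᶠ[𝓝 x] fun _ => 0 := by
    have : {y : ℝ | 1 < |y|} ∈ 𝓝 x := (isOpen_lt continuous_const continuous_abs).mem_nhds hc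
    filter_upwards [this] with y hy
    unfold chc
    rw [chi_zero (le_of_lt hy)]
    simp
  rw [h1.iteratedDeriv_eq]
  simp

lemma chc_bdd (k : ℕ) : ∃ M : ℝ, ∀ x, ‖iteratedDeriv k chc x‖ ≤ M := by
  have hc : Continuous (iteratedDeriv k chc) :=
    contDiff_chc.continuous_iteratedDeriv k (by exact_mod_cast le_top)
  have hs : HasCompactSupport (iteratedDeriv k chc) := by
    refine HasCompactSupport.intro (K := Set.Icc (-1 : ℝ) 1) isCompact_Icc fun x hx => ?_
    by_contra h
    exact hx (abs_le.1 (chc_supp k x h))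
  obtain ⟨M, hM⟩ := hs.exists_bound_of_continuous hc
  exact ⟨M, hM⟩

end Pool.Agent.T9h31.LG
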