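import Pool.Agent.T9h31.LG.Wl
import Pool.Agent.T9h31.LG.Cut

/-!
# (BS) of `T9h44.LG.Spec` (helper31)
-/

set_option autoImplicit false

namespace Pool.Agent.T9h31.LG

open MeasureTheory Real Pool.Agent.T9h44.LG
open scoped ENNReal ComplexConjugate ContDiff Topology

/-- Cauchy-Schwarz -/
lemma cs_lint {K u : ℝ × ℝ → ℝ≥0∞} (hK : Measurable K) (hu : Measurable u) :
    (∫⁻ z, K z * u z) ^ 2 ≤ (∫⁻ z, K z) * ∫⁻ z, K z * u z ^ 2 := by
  have h := ENNReal.lintegral_mul_le_Lp_mul_Lq (μ := (volume : Measure (ℝ × ℝ)))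
    (Real.HolderConjugate.two_two)
    (f := fun z => K z ^ (1 / 2 : ℝ)) (g := fun z => K z ^ (1 / 2 : ℝ) * u z)
    (hK.pow_const _).aemeasurable ((hK.pow_const _).mul hu).aemeasurable
  have e1 : ∀ z, (K z ^ (1 / 2 : ℝ)) * (K z ^ (1 / 2 : ℝ) * u z) = K z * u z := by
    intro z
    rw [← mul_assoc, ← ENNReal.rpow_add_of_nonneg _ _ (by norm_num) (by norm_num)]
    norm_num
  have e2 : ∀ z, (K z ^ (1 / 2 : ℝ)) ^ (2 : ℝ) = K z := by
    intro z
    rw [← ENNReal.rpow_mul]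
    norm_num
  have e3 : ∀ z, (K z ^ (1 / 2 : ℝ) * u z) ^ (2 : ℝ) = K z * u z ^ 2 := by
    intro z
    rw [ENNReal.mul_rpow_of_nonneg _ _ (by norm_num), e2]
    norm_num
  simp only [Pi.mul_apply, e1, e2, e3] at h
  calc (∫⁻ z, K z * u z) ^ 2 ≤
      ((∫⁻ z, K z) ^ (1 / 2 : ℝ) * (∫⁻ z, K z * u z ^ 2) ^ (1 / 2 : ℝ)) ^ 2 := by gcongr
    _ = _ := by
      rw [mul_pow, ← ENNReal.rpow_natCast, ← ENNReal.rpow_natCast, ← ENNReal.rpow_mul,
        ← ENNReal.rpow_mul]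
      norm_num

/-- Young -/
lemma young {K u : ℝ × ℝ → ℝ≥0∞} (hK : Measurable K) (hu : Measurable u) :
    ∫⁻ z : ℝ × ℝ, (∫⁻ z' : ℝ × ℝ, K (z - z') * u z') ^ 2 ≤ (∫⁻ z, K z) ^ 2 * ∫⁻ z, u z ^ 2 := by
  have hKs : ∀ z, Measurable fun z' : ℝ × ℝ => K (z - z') := fun z =>
    hK.comp (measurable_const.sub measurable_id)
  have e1 : ∀ z, ∫⁻ z' : ℝ × ℝ, K (z - z') = ∫⁻ z, K z := fun z =>
    lintegral_sub_left_eq_self K z
  have h1 : ∀ z, (∫⁻ z' : ℝ × ℝ, K (z - z') * u z') ^ 2 ≤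
      (∫⁻ z, K z) * ∫⁻ z' : ℝ × ℝ, K (z - z') * u z' ^ 2 := by
    intro z
    have := cs_lint (hKs z) hu
    rwa [e1] at this
  have hm : Measurable fun p : (ℝ × ℝ) × (ℝ × ℝ) => K (p.1 - p.2) * u p.2 ^ 2 :=
    (hK.comp (measurable_fst.sub measurable_snd)).mul ((hu.comp measurable_snd).pow_const 2)
  refine (lintegral_mono h1).trans ?_
  rw [lintegral_const_mul _ hm.lintegral_prod_right', lintegral_lintegral_swap hm.aemeasurable]
  rw [pow_two, mul_assoc]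
  refine mul_le_mul' le_rfl (le_of_eq ?_)
  rw [← lintegral_const_mul _ (hu.pow_const 2)]
  refine lintegral_congr fun z' => ?_
  have hm2 : Measurable fun x : ℝ × ℝ => K (x - z') := hK.comp (measurable_id.sub measurable_const)
  simp only
  rw [lintegral_mul_const _ hm2]
  congr 1
  exact lintegral_sub_right_eq_self K z'

lemma om_le (x : ℝ) : om x ≤ (1 + x ^ 2)⁻¹ := by
  unfold om
  refine inv_anti₀ (by positivity) ?_
  nlinarith [sq_nonneg x, sq_nonneg (x ^ 2)]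

lemma om_pos (x : ℝ) : 0 < om x := by unfold om; positivity

lemma continuous_om : Continuous om := by
  unfold om
  exact Continuous.inv₀ (by fun_prop) fun x => by positivity

lemma integral_wr {r : ℝ} (hr : 0 < r) : ∫ z, wr r z = (r * π) ^ 2 := by
  have h1 : ∫ x : ℝ, (1 + (x / r) ^ 2)⁻¹ = r * π := by
    rw [Measure.integral_comp_div (fun x : ℝ => (1 + x ^ 2)⁻¹) r, integral_univ_inv_one_add_sq,
      abs_of_pos hr, smul_eq_mul]
  have h2 := integral_prod_mul (μ := (volume : Measure ℝ)) (ν := (volume : Measure ℝ))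
    (fun x : ℝ => (1 + (x / r) ^ 2)⁻¹) (fun x : ℝ => (1 + (x / r) ^ 2)⁻¹)
  rw [h1] at h2
  rw [pow_two, ← h2]
  rfl

lemma Wt_mass {ρ : ℝ} (hρ : 0 < ρ) : ∫⁻ z, ENNReal.ofReal (Wt 0 1 ρ z) ≤ ENNReal.ofReal (π ^ 2) := by
  have h1 : ∀ z, Wt 0 1 ρ z ≤ 1 / ρ ^ 2 * wr ρ z := by
    intro z
    unfold Wt wr
    refine mul_le_mul_of_nonneg_left ?_ (by positivity)
    have e1 : (z.1 + 0 * z.2) / ρ = z.1 / ρ := by ring
    have e2 : 1 * z.2 / ρ = z.2 / ρ := by ring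
    rw [e1, e2]
    exact mul_le_mul (om_le _) (om_le _) (om_pos _).le (by positivity)
  refine (lintegral_mono fun z => ENNReal.ofReal_le_ofReal (h1 z)).trans (le_of_eq ?_)
  rw [← ofReal_integral_eq_lintegral_ofReal ((integrable_wr hρ).const_mul _)
    (Filter.Eventually.of_forall fun z => mul_nonneg (by positivity) (wr_pos _ _).le),
    integral_const_mul, integral_wr hρ]
  congr 1
  field_simp

lemma measurable_Wt (α s ρ : ℝ) : Measurable fun z => ENNReal.ofReal (Wt α s ρ z) := by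
  refine Measurable.ennreal_ofReal ?_
  unfold Wt
  refine (continuous_const.mul ((continuous_om.comp ?_).mul (continuous_om.comp ?_))).measurable
  · fun_prop
  · fun_prop

/-- the average is bounded on `L²` -/
lemma Av_young {ρ : ℝ} (hρ : 0 < ρ) {u : ℝ × ℝ → ℝ≥0∞} (hu : Measurable u) :
    ∫⁻ z, Av 0 1 ρ u z ^ 2 ≤ ENNReal.ofReal (π ^ 2) ^ 2 * ∫⁻ z, u z ^ 2 := by
  refine (young (measurable_Wt 0 1 ρ) hu).trans ?_
  gcongr
  exact Wt_mass hρ

/-- a larger scale -/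
lemma Av_scale {ρ ρ' : ℝ} (hρ : 0 < ρ) (h : ρ ≤ ρ') (u : ℝ × ℝ → ℝ≥0∞) (z : ℝ × ℝ) :
    Av 0 1 ρ u z ≤ ENNReal.ofReal ((ρ' / ρ) ^ 2) * Av 0 1 ρ' u z := by
  have hρ' : 0 < ρ' := lt_of_lt_of_le hρ h
  unfold Av
  rw [← lintegral_const_mul' _ _ ENNReal.ofReal_ne_top]
  refine lintegral_mono fun y => ?_
  simp only
  rw [← mul_assoc, ← ENNReal.ofReal_mul (by positivity)]
  refine mul_le_mul' (ENNReal.ofReal_le_ofReal ?_) le_rfl
  have hom : ∀ x : ℝ, om (x / ρ) ≤ om (x / ρ') := by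
    intro x
    unfold om
    refine inv_anti₀ (by positivity) ?_
    have h1 : (x / ρ') ^ 2 ≤ (x / ρ) ^ 2 := by
      rw [div_pow, div_pow]
      exact div_le_div_of_nonneg_left (sq_nonneg x) (by positivity)
        (pow_le_pow_left₀ hρ.le h 2)
    gcongr
  unfold Wt
  have e1 : (ρ' / ρ) ^ 2 * (1 / ρ' ^ 2 * (om (((z - y).1 + 0 * (z - y).2) / ρ') *
      om (1 * (z - y).2 / ρ'))) = 1 / ρ ^ 2 * (om (((z - y).1 + 0 * (z - y).2) / ρ') *
      om (1 * (z - y).2 / ρ')) := by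
    field_simp
  rw [e1]
  refine mul_le_mul_of_nonneg_left ?_ (by positivity)
  exact mul_le_mul (hom _) (hom _) (om_pos _).le (om_pos _).le

lemma measurable_sq {G : ℝ × ℝ → ℂ} (hG : Nice G) : Measurable (T9h44.LG.sq G) :=
  (continuous_Ext hG).measurable.enorm.pow_const 2

/-- the propagator as a multiplier -/
lemma Uo_mul {G : ℝ × ℝ → ℂ} (hG : Cls 1 G) (γ : ℝ) :
    Uo γ G = fun ζ => (ee (γ * qb ζ - 0) * beta0 ζ) * G ζ := by
  ext ζ
  unfold Uo
  by_cases h : G ζ = 0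
  · rw [h, mul_zero, mul_zero]
  · obtain ⟨h1, h2, h3⟩ := hG.2 ζ h
    have h4 : |ζ.2| ≤ 17 := by linarith
    rw [beta0_eq h1 (by linarith) h4, mul_one, sub_zero]
    congr 2
    unfold qq qb
    rw [theta_eq (by linarith)]
    ring

theorem s_bs : S_bs := by
  obtain ⟨C, hC, hwl⟩ := s_wl
  have hfam : ∀ a b : ℕ, ∃ B : ℝ, 0 ≤ B ∧ ∀ l c ζ,
      ‖(dw^[a] (dx^[b] (fun ζ => ee (l * qb ζ - c) * beta0 ζ))) ζ‖ ≤ B * (1 + |l|) ^ (a + b) := by
    intro a b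
    exact fam_bound ee_bdd (fam_iter contDiff_ee contDiff_qb (fam0 ee qb test_beta0) a b)
  choose B hB0 hB using hfam
  set A : ℝ := ∑ a ∈ Finset.range 3, ∑ b ∈ Finset.range 3, B a b with hA
  have hA0 : 0 ≤ A := Finset.sum_nonneg fun a _ => Finset.sum_nonneg fun b _ => hB0 a b
  have hBA : ∀ a ≤ 2, ∀ b ≤ 2, B a b ≤ A := by
    intro a ha b hb
    calc B a b ≤ ∑ b ∈ Finset.range 3, B a b :=
          Finset.single_le_sum (f := fun b => B a b) (fun b _ => hB0 a b)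
            (Finset.mem_range.2 (by omega))
      _ ≤ A := Finset.single_le_sum (f := fun a => ∑ b ∈ Finset.range 3, B a b)
            (fun a _ => Finset.sum_nonneg fun b _ => hB0 a b) (Finset.mem_range.2 (by omega))
  refine ⟨(C * (A ^ 2 + 1) * π ^ 2) ^ 2, by positivity, ?_⟩
  intro G hG ρ hρ γ
  have hρ0 : 0 < ρ := by linarith
  set ρ' : ℝ := ρ + |γ| with hρ'
  have hρρ : ρ ≤ ρ' := by rw [hρ']; linarith [abs_nonneg γ]
  have hρ'0 : 0 < ρ' := by linarith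
  set μ : ℝ × ℝ → ℂ := fun ζ => ee (γ * qb ζ - 0) * beta0 ζ with hμ
  have hμt : Test μ := by
    refine test_mul ?_ test_beta0
    refine contDiff_ee.comp ?_
    exact (contDiff_const.mul contDiff_qb).sub contDiff_const
  have h1 : ∀ z, Av 0 1 ρ' (T9h44.LG.sq (Uo γ G)) z ≤
      ENNReal.ofReal (C * A ^ 2) * Av 0 1 ρ' (T9h44.LG.sq G) z := by
    intro z
    have := hwl Unit (fun _ => μ) A ρ' hρ'0 hA0 (fun _ => hμt.1) (fun _ => hμt.2) ?_ G hG.1 z
    · simp only [Finset.univ_unique, Finset.sum_singleton] at this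
      rw [Uo_mul hG γ]
      exact this
    · intro ζ a ha b hb
      simp only [Finset.univ_unique, Finset.sum_singleton]
      rw [iter_eq hμt]
      refine pow_le_pow_left₀ (norm_nonneg _) ?_ 2
      refine (hB a b γ 0 ζ).trans ?_
      refine mul_le_mul (hBA a ha b hb) ?_ (by positivity) hA0
      exact pow_le_pow_left₀ (by positivity) (by rw [hρ']; linarith) _
  have h2 : ∀ z, Av 0 1 ρ (T9h44.LG.sq (Uo γ G)) z ^ 2 ≤
      (ENNReal.ofReal ((ρ' / ρ) ^ 2) * ENNReal.ofReal (C * A ^ 2)) ^ 2 *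
        Av 0 1 ρ' (T9h44.LG.sq G) z ^ 2 := by
    intro z
    rw [← mul_pow, mul_assoc]
    gcongr
    exact (Av_scale hρ0 hρρ _ z).trans (mul_le_mul' le_rfl (h1 z))
  refine (lintegral_mono h2).trans ?_
  rw [lintegral_const_mul' _ _ (by finiteness)]
  have h3 := Av_young hρ'0 (measurable_sq hG.1)
  have h4 : ∫⁻ z, T9h44.LG.sq G z ^ 2 = ∫⁻ z : ℝ × ℝ, ‖T9h44.LG.Ext G z‖ₑ ^ 4 := by
    refine lintegral_congr fun z => ?_
    unfold T9h44.LG.sq
    rw [← pow_mul]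
  rw [h4] at h3
  refine (mul_le_mul' le_rfl h3).trans ?_
  rw [← mul_assoc]
  refine mul_le_mul' ?_ le_rfl
  rw [← ENNReal.ofReal_mul (by positivity), ← ENNReal.ofReal_pow (by positivity),
    ← ENNReal.ofReal_pow (by positivity), ← ENNReal.ofReal_mul (by positivity)]
  refine ENNReal.ofReal_le_ofReal ?_
  have e5 : ρ' / ρ = 1 + |γ| / ρ := by
    rw [hρ', add_div, div_self hρ0.ne']
  rw [e5]
  have e6 : ((1 + |γ| / ρ) ^ 2 * (C * A ^ 2)) ^ 2 * (π ^ 2) ^ 2 =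
      (C * A ^ 2 * π ^ 2) ^ 2 * (1 + |γ| / ρ) ^ 4 := by ring
  rw [e6]
  refine mul_le_mul_of_nonneg_right ?_ (by positivity)
  refine pow_le_pow_left₀ (by positivity) ?_ 2
  refine mul_le_mul_of_nonneg_right ?_ (by positivity)
  exact mul_le_mul_of_nonneg_left (by linarith) hC.le

end Pool.Agent.T9h31.LG
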