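import Pool.Agent.T9h31.LG.Inv

/-!
# Derivative bounds for `Φ(λ q - c) β` (helper31)
-/

set_option autoImplicit false

namespace Pool.Agent.T9h31.LG

open MeasureTheory Real Pool.Agent.T9h44.LG
open scoped ENNReal ComplexConjugate ContDiff

/-- the functions `∑_{k ≤ n} λ^k Φ^(k)(λ q - c) β_k` -/
def Fam (Φ : ℝ → ℂ) (q : ℝ × ℝ → ℝ) (n : ℕ) (F : ℝ → ℝ → ℝ × ℝ → ℂ) : Prop :=
  ∃ β : ℕ → ℝ × ℝ → ℂ, (∀ k, Test (β k)) ∧ ∀ l c : ℝ, F l c = fun ζ =>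
    ∑ k ∈ Finset.range (n + 1), (l : ℂ) ^ k * iteratedDeriv k Φ (l * q ζ - c) * β k ζ

lemma test_add {μ ν : ℝ × ℝ → ℂ} (h : Test μ) (h' : Test ν) : Test (fun ζ => μ ζ + ν ζ) :=
  ⟨h.1.add h'.1, h.2.add h'.2⟩

lemma test_mul {μ ν : ℝ × ℝ → ℂ} (h : ContDiff ℝ (⊤ : ℕ∞) μ) (h' : Test ν) :
    Test (fun ζ => μ ζ * ν ζ) :=
  ⟨h.mul h'.1, h'.2.mul_left⟩

lemma test_dir {μ : ℝ × ℝ → ℂ} (h : Test μ) (v : ℝ × ℝ) : Test (fun ζ => fderiv ℝ μ ζ v) :=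
  ⟨(h.1.fderiv_right (m := ((⊤ : ℕ∞) : WithTop ℕ∞)) (by simp)).clm_apply contDiff_const,
    h.2.fderiv_apply ℝ v⟩

lemma fam_dir {Φ : ℝ → ℂ} (hΦ : ContDiff ℝ (⊤ : ℕ∞) Φ) {q : ℝ × ℝ → ℝ}
    (hq : ContDiff ℝ (⊤ : ℕ∞) q) {n : ℕ} {F : ℝ → ℝ → ℝ × ℝ → ℂ} (hF : Fam Φ q n F)
    (v : ℝ × ℝ) : Fam Φ q (n + 1) (fun l c ζ => fderiv ℝ (F l c) ζ v) := by
  obtain ⟨β, hβ, hF⟩ := hF
  have hqv : ContDiff ℝ (⊤ : ℕ∞) (fun ζ => ((fderiv ℝ q ζ v : ℝ) : ℂ)) := by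
    refine Complex.ofRealCLM.contDiff.comp ?_
    exact (hq.fderiv_right (m := ((⊤ : ℕ∞) : WithTop ℕ∞)) (by simp)).clm_apply contDiff_const
  refine ⟨fun k => if k = 0 then (fun ζ => fderiv ℝ (β 0) ζ v) else
    if k = n + 1 then (fun ζ => ((fderiv ℝ q ζ v : ℝ) : ℂ) * β n ζ) else
    (fun ζ => fderiv ℝ (β k) ζ v + ((fderiv ℝ q ζ v : ℝ) : ℂ) * β (k - 1) ζ), ?_, ?_⟩
  · intro k
    beta_reduce
    split_ifs with h1 h2
    · exact test_dir (hβ 0) v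
    · exact test_mul hqv (hβ n)
    · exact test_add (test_dir (hβ k) v) (test_mul hqv (hβ (k - 1)))
  · intro l c
    beta_reduce
    rw [hF l c]
    ext ζ
    have hd : ∀ k : ℕ, HasFDerivAt (fun ζ : ℝ × ℝ => (l : ℂ) ^ k *
        iteratedDeriv k Φ (l * q ζ - c) * β k ζ)
        (((l : ℂ) ^ k * iteratedDeriv k Φ (l * q ζ - c)) • fderiv ℝ (β k) ζ +
          β k ζ • ((l : ℂ) ^ k • ((l • fderiv ℝ q ζ).smulRight
            (iteratedDeriv (k + 1) Φ (l * q ζ - c))))) ζ := by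
      intro k
      have h1 : HasFDerivAt (fun ζ : ℝ × ℝ => l * q ζ - c) (l • fderiv ℝ q ζ) ζ :=
        (((hq.differentiable (by simp)) ζ).hasFDerivAt.const_mul l).sub_const c
      have h2 : HasDerivAt (iteratedDeriv k Φ) (iteratedDeriv (k + 1) Φ (l * q ζ - c))
          (l * q ζ - c) := by
        rw [iteratedDeriv_succ]
        refine DifferentiableAt.hasDerivAt ?_
        exact (hΦ.differentiable_iteratedDeriv k (by exact_mod_cast WithTop.coe_lt_top _)) _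
      have h3 : HasFDerivAt (fun ζ : ℝ × ℝ => iteratedDeriv k Φ (l * q ζ - c))
          ((l • fderiv ℝ q ζ).smulRight (iteratedDeriv (k + 1) Φ (l * q ζ - c))) ζ := by
        have h5 : HasFDerivAt (iteratedDeriv k Φ ∘ fun ζ : ℝ × ℝ => l * q ζ - c) _ ζ :=
          HasFDerivAt.comp ζ (HasDerivAt.hasFDerivAt h2) h1
        refine h5.congr_fderiv ?_
        ext
        · simp [mul_assoc]
        · simp [mul_assoc]
      have h4 := (h3.const_mul ((l : ℂ) ^ k)).mul ((hβ k).diff ζ).hasFDerivAt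
      exact h4
    have hs := HasFDerivAt.fun_sum (u := Finset.range (n + 1)) (fun k _ => hd k)
    rw [hs.fderiv]
    rw [_root_.sum_apply]
    have e1 : ∀ k, (((l : ℂ) ^ k * iteratedDeriv k Φ (l * q ζ - c)) • fderiv ℝ (β k) ζ +
          β k ζ • ((l : ℂ) ^ k • ((l • fderiv ℝ q ζ).smulRight
            (iteratedDeriv (k + 1) Φ (l * q ζ - c))))) v =
        (l : ℂ) ^ k * iteratedDeriv k Φ (l * q ζ - c) * fderiv ℝ (β k) ζ v +
        (l : ℂ) ^ (k + 1) * iteratedDeriv (k + 1) Φ (l * q ζ - c) *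
          (((fderiv ℝ q ζ v : ℝ) : ℂ) * β k ζ) := by
      intro k
      simp only [_root_.add_apply, _root_.smul_apply,
        ContinuousLinearMap.smulRight_apply, smul_eq_mul, Complex.real_smul]
      push_cast
      ring
    simp_rw [e1]
    rw [Finset.sum_add_distrib]
    rw [Finset.sum_range_succ' (fun k => (l : ℂ) ^ k * iteratedDeriv k Φ (l * q ζ - c) *
      (if k = 0 then (fun ζ => fderiv ℝ (β 0) ζ v) else
        if k = n + 1 then (fun ζ => ((fderiv ℝ q ζ v : ℝ) : ℂ) * β n ζ) else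
        (fun ζ => fderiv ℝ (β k) ζ v + ((fderiv ℝ q ζ v : ℝ) : ℂ) * β (k - 1) ζ)) ζ) (n + 1)]
    rw [Finset.sum_range_succ' (fun k => (l : ℂ) ^ k * iteratedDeriv k Φ (l * q ζ - c) *
      fderiv ℝ (β k) ζ v) n]
    rw [Finset.sum_range_succ (fun k => (l : ℂ) ^ (k + 1) *
      iteratedDeriv (k + 1) Φ (l * q ζ - c) * (((fderiv ℝ q ζ v : ℝ) : ℂ) * β k ζ)) n]
    rw [Finset.sum_range_succ (fun k => (l : ℂ) ^ (k + 1) *
      iteratedDeriv (k + 1) Φ (l * q ζ - c) *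
      (if k + 1 = 0 then (fun ζ => fderiv ℝ (β 0) ζ v) else
        if k + 1 = n + 1 then (fun ζ => ((fderiv ℝ q ζ v : ℝ) : ℂ) * β n ζ) else
        (fun ζ => fderiv ℝ (β (k + 1)) ζ v + ((fderiv ℝ q ζ v : ℝ) : ℂ) * β (k + 1 - 1) ζ)) ζ) n]
    have e2 : ∑ k ∈ Finset.range n, (l : ℂ) ^ (k + 1) *
      iteratedDeriv (k + 1) Φ (l * q ζ - c) *
      (if k + 1 = 0 then (fun ζ => fderiv ℝ (β 0) ζ v) else
        if k + 1 = n + 1 then (fun ζ => ((fderiv ℝ q ζ v : ℝ) : ℂ) * β n ζ) else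
        (fun ζ => fderiv ℝ (β (k + 1)) ζ v + ((fderiv ℝ q ζ v : ℝ) : ℂ) * β (k + 1 - 1) ζ)) ζ =
      ∑ k ∈ Finset.range n, ((l : ℂ) ^ (k + 1) * iteratedDeriv (k + 1) Φ (l * q ζ - c) *
        fderiv ℝ (β (k + 1)) ζ v + (l : ℂ) ^ (k + 1) *
      iteratedDeriv (k + 1) Φ (l * q ζ - c) * (((fderiv ℝ q ζ v : ℝ) : ℂ) * β k ζ)) := by
      refine Finset.sum_congr rfl fun k hk => ?_
      rw [Finset.mem_range] at hk
      rw [if_neg (by omega), if_neg (by omega)]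
      simp only [Nat.add_sub_cancel]
      ring
    rw [e2, Finset.sum_add_distrib]
    rw [if_neg (by omega), if_pos rfl, if_pos rfl]
    ring

lemma fam_iter {Φ : ℝ → ℂ} (hΦ : ContDiff ℝ (⊤ : ℕ∞) Φ) {q : ℝ × ℝ → ℝ}
    (hq : ContDiff ℝ (⊤ : ℕ∞) q) {F : ℝ → ℝ → ℝ × ℝ → ℂ} (hF : Fam Φ q 0 F) (a b : ℕ) :
    Fam Φ q (a + b) (fun l c => dw^[a] (dx^[b] (F l c))) := by
  have h1 : Fam Φ q b (fun l c => dx^[b] (F l c)) := by
    induction b with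
    | zero => exact hF
    | succ b ih =>
      have := fam_dir hΦ hq ih (0, 1)
      simp only [Function.iterate_succ_apply']
      exact this
  induction a with
  | zero => rw [zero_add]; exact h1
  | succ a ih =>
    have := fam_dir hΦ hq ih (1, 0)
    simp only [Function.iterate_succ_apply']
    rw [show a + 1 + b = a + b + 1 by ring]
    exact this

lemma fam_bound {Φ : ℝ → ℂ} {q : ℝ × ℝ → ℝ}
    (hb : ∀ k : ℕ, ∃ M : ℝ, ∀ x, ‖iteratedDeriv k Φ x‖ ≤ M) {n : ℕ}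
    {F : ℝ → ℝ → ℝ × ℝ → ℂ} (hF : Fam Φ q n F) :
    ∃ C : ℝ, 0 ≤ C ∧ ∀ l c ζ, ‖F l c ζ‖ ≤ C * (1 + |l|) ^ n := by
  obtain ⟨β, hβ, hF⟩ := hF
  choose M hM using hb
  have hB : ∀ k, ∃ B : ℝ, ∀ ζ, ‖β k ζ‖ ≤ B := fun k => (hβ k).nice.2.1
  choose B hB using hB
  have hM0 : ∀ k, 0 ≤ M k := fun k => (norm_nonneg _).trans (hM k 0)
  have hB0 : ∀ k, 0 ≤ B k := fun k => (norm_nonneg _).trans (hB k 0)
  refine ⟨∑ k ∈ Finset.range (n + 1), M k * B k,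
    Finset.sum_nonneg fun k _ => mul_nonneg (hM0 k) (hB0 k), fun l c ζ => ?_⟩
  rw [hF l c]
  simp only
  refine (norm_sum_le _ _).trans ?_
  rw [Finset.sum_mul]
  refine Finset.sum_le_sum fun k hk => ?_
  rw [Finset.mem_range] at hk
  rw [norm_mul, norm_mul, norm_pow, Complex.norm_real, Real.norm_eq_abs]
  have h1 : |l| ^ k ≤ (1 + |l|) ^ n := by
    calc |l| ^ k ≤ (1 + |l|) ^ k := pow_le_pow_left₀ (abs_nonneg _) (by linarith) k
      _ ≤ (1 + |l|) ^ n := pow_le_pow_right₀ (by linarith [abs_nonneg l]) (by omega)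
  calc |l| ^ k * ‖iteratedDeriv k Φ (l * q ζ - c)‖ * ‖β k ζ‖ ≤
      (1 + |l|) ^ n * M k * B k := by
        refine mul_le_mul (mul_le_mul h1 (hM k _) (norm_nonneg _) (by positivity)) (hB k _)
          (norm_nonneg _) (mul_nonneg (by positivity) (hM0 k))
    _ = _ := by ring

lemma fam_supp {Φ : ℝ → ℂ} {q : ℝ × ℝ → ℝ}
    (hs : ∀ (k : ℕ) (x : ℝ), iteratedDeriv k Φ x ≠ 0 → |x| ≤ 1) {n : ℕ}
    {F : ℝ → ℝ → ℝ × ℝ → ℂ} (hF : Fam Φ q n F) (l c : ℝ) (ζ : ℝ × ℝ) (h : F l c ζ ≠ 0) :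
    |l * q ζ - c| ≤ 1 := by
  obtain ⟨β, hβ, hF⟩ := hF
  rw [hF l c] at h
  simp only at h
  by_contra hc
  refine h (Finset.sum_eq_zero fun k _ => ?_)
  have : iteratedDeriv k Φ (l * q ζ - c) = 0 := by
    by_contra h2
    exact hc (hs k _ h2)
  rw [this, mul_zero, zero_mul]

end Pool.Agent.T9h31.LG
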