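import Pool.Agent.T9h31.LG.Lo
import Pool.Agent.T9h89.LG.Rec

/-!
# (GEN) of `T9h44.LG.Spec` (helper31)
-/

set_option autoImplicit false

namespace Pool.Agent.T9h31.LG

open MeasureTheory Real Pool.Agent.T9h44.LG
open scoped ENNReal ComplexConjugate ContDiff Topology

/-- the fourth power of the `L⁴` norm -/
noncomputable def I4 (G : ℝ × ℝ → ℂ) : ℝ≥0∞ := ∫⁻ z : ℝ × ℝ, ‖T9h44.LG.Ext G z‖ₑ ^ 4

lemma measurable_I4 {G : ℝ × ℝ → ℂ} (hG : Measurable G) : Measurable fun γ => I4 (Uo γ G) :=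
  ((Pool.Agent.T9h89.LG.meas_ExtU hG).enorm.pow_const 4).lintegral_prod_right'

/-- Young's inequality in `L⁴` -/
lemma young4 {K u : ℝ × ℝ → ℝ≥0∞} (hK : Measurable K) (hu : Measurable u) :
    ∫⁻ z : ℝ × ℝ, (∫⁻ z' : ℝ × ℝ, K (z - z') * u z') ^ 4 ≤ (∫⁻ z, K z) ^ 4 * ∫⁻ z, u z ^ 4 := by
  have hKs : ∀ z, Measurable fun z' : ℝ × ℝ => K (z - z') := fun z =>
    hK.comp (measurable_const.sub measurable_id)
  have h1 : ∀ z, (∫⁻ z' : ℝ × ℝ, K (z - z') * u z') ^ 4 ≤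
      (∫⁻ z, K z) ^ 2 * (∫⁻ z' : ℝ × ℝ, K (z - z') * u z' ^ 2) ^ 2 := by
    intro z
    have := cs_lint (hKs z) hu
    rw [show ∫⁻ z' : ℝ × ℝ, K (z - z') = ∫⁻ z, K z from lintegral_sub_left_eq_self K z] at this
    calc (∫⁻ z' : ℝ × ℝ, K (z - z') * u z') ^ 4 =
        ((∫⁻ z' : ℝ × ℝ, K (z - z') * u z') ^ 2) ^ 2 := by rw [← pow_mul]
      _ ≤ ((∫⁻ z, K z) * ∫⁻ z' : ℝ × ℝ, K (z - z') * u z' ^ 2) ^ 2 := by gcongr
      _ = _ := by rw [mul_pow]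
  have hm : Measurable fun p : (ℝ × ℝ) × (ℝ × ℝ) => K (p.1 - p.2) * u p.2 ^ 2 :=
    (hK.comp (measurable_fst.sub measurable_snd)).mul ((hu.comp measurable_snd).pow_const 2)
  refine (lintegral_mono h1).trans ?_
  rw [lintegral_const_mul _ (hm.lintegral_prod_right'.pow_const 2)]
  have h2 := young hK (hu.pow_const 2)
  calc (∫⁻ z, K z) ^ 2 * ∫⁻ z : ℝ × ℝ, (∫⁻ z' : ℝ × ℝ, K (z - z') * u z' ^ 2) ^ 2 ≤
      (∫⁻ z, K z) ^ 2 * ((∫⁻ z, K z) ^ 2 * ∫⁻ z, (u z ^ 2) ^ 2) := mul_le_mul' le_rfl h2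
    _ = _ := by
      rw [← mul_assoc, ← pow_add]
      congr 1
      refine lintegral_congr fun z => ?_
      rw [← pow_mul]

/-- a test function is a bounded multiplier of `L⁴` -/
lemma mult4 {μ : ℝ × ℝ → ℂ} (hμ : Test μ) {G : ℝ × ℝ → ℂ} (hG : Nice G) :
    I4 (fun ζ => μ ζ * G ζ) ≤ (∫⁻ z, ‖T9h44.LG.Ext μ z‖ₑ) ^ 4 * I4 G := by
  unfold I4
  refine le_trans (lintegral_mono fun z => ?_)
    (young4 (continuous_Ext hμ.nice).measurable.enorm (continuous_Ext hG).measurable.enorm)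
  simp only
  gcongr
  rw [Ext_mul hμ hG]
  refine (enorm_integral_le_lintegral_enorm _).trans (le_of_eq ?_)
  refine lintegral_congr fun y => ?_
  rw [enorm_mul]

/-- scaling and shear -/
noncomputable def sc (σ α : ℝ) (G : ℝ × ℝ → ℂ) (ζ : ℝ × ℝ) : ℂ := G (lin σ 0 (σ * α) σ ζ)

lemma lin_eq (σ α : ℝ) (ζ : ℝ × ℝ) : lin σ 0 (σ * α) σ ζ = (σ * ζ.1, σ * (α * ζ.1 + ζ.2)) := by
  unfold lin
  ext
  · simp
  · simp only; ring

lemma Ext_sc {σ α : ℝ} (hσ : 0 < σ) (c : ℝ) {G : ℝ × ℝ → ℂ} (hG : Measurable G)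
    (hs : ∀ ζ, G ζ ≠ 0 → ζ.1 ≠ 0) (z : ℝ × ℝ) :
    T9h44.LG.Ext (Uo c G) z = ((σ ^ 2 : ℝ) : ℂ) * T9h44.LG.Ext (Uo (σ * c) (sc σ α G))
      (lin σ (σ * α) 0 σ z + (σ * α ^ 2 * c, 2 * σ * α * c)) := by
  have hd : σ * σ - 0 * (σ * α) ≠ 0 := by
    rw [zero_mul, sub_zero]; positivity
  have hqm : Measurable (Uo c G) := by
    unfold Uo
    exact (measurable_ee.comp (Pool.Agent.T9h89.LG.meas_qq.const_mul c)).mul hG
  have h1 := int_lin hd (f := fun ζ => ee (z.1 * ζ.1 + z.2 * ζ.2) * Uo c G ζ)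
    ((measurable_ee.comp (by fun_prop)).mul hqm)
  have e1 : σ * σ - 0 * (σ * α) = σ ^ 2 := by ring
  rw [e1, abs_of_pos (by positivity)] at h1
  have hs' : ((σ ^ 2 : ℝ) : ℂ) ≠ 0 := by
    have : σ ^ 2 ≠ 0 := by positivity
    exact_mod_cast this
  have h2 : T9h44.LG.Ext (Uo (σ * c) (sc σ α G))
      (lin σ (σ * α) 0 σ z + (σ * α ^ 2 * c, 2 * σ * α * c)) =
      ∫ ζ, (fun ζ => ee (z.1 * ζ.1 + z.2 * ζ.2) * Uo c G ζ) (lin σ 0 (σ * α) σ ζ) := by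
    unfold T9h44.LG.Ext
    refine integral_congr_ae (Filter.Eventually.of_forall fun ζ => ?_)
    simp only
    unfold Uo sc
    by_cases h0 : G (lin σ 0 (σ * α) σ ζ) = 0
    · rw [h0]; simp
    · have h3 := hs _ h0
      rw [lin_eq] at h3
      simp only at h3
      have hζ : ζ.1 ≠ 0 := right_ne_zero_of_mul h3
      rw [← mul_assoc, ← mul_assoc, ← ee_add, ← ee_add]
      congr 2
      rw [lin_eq]
      unfold qq lin
      simp only [Prod.fst_add, Prod.snd_add]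
      field_simp
      ring
  rw [h2, h1]
  unfold T9h44.LG.Ext
  rw [← mul_assoc, ← Complex.ofReal_mul, mul_inv_cancel₀ (by positivity), Complex.ofReal_one,
    one_mul]

lemma nice_sc {σ α : ℝ} (hσ : 0 < σ) {G : ℝ × ℝ → ℂ} (hG : Nice G) : Nice (sc σ α G) := by
  obtain ⟨hm, ⟨B, hB⟩, r, hr⟩ := hG
  refine ⟨hm.comp (continuous_lin _ _ _ _).measurable, ⟨B, fun ζ => hB _⟩,
    r / σ + (r / σ + |α| * (r / σ)), fun ζ hζ => ?_⟩
  obtain ⟨h1, h2⟩ := hr _ hζ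
  rw [lin_eq] at h1 h2
  simp only at h1 h2
  rw [abs_mul, abs_of_pos hσ] at h1 h2
  have h3 : |ζ.1| ≤ r / σ := by rw [le_div_iff₀ hσ]; linarith
  have h4 : |α * ζ.1 + ζ.2| ≤ r / σ := by rw [le_div_iff₀ hσ]; linarith
  have h5 : |ζ.2| ≤ r / σ + |α| * (r / σ) := by
    calc |ζ.2| = |(α * ζ.1 + ζ.2) - α * ζ.1| := by congr 1; ring
      _ ≤ |α * ζ.1 + ζ.2| + |α * ζ.1| := abs_sub _ _
      _ ≤ _ := by
        rw [abs_mul α]
        nlinarith [abs_nonneg α]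
  have h6 : 0 ≤ r / σ := (abs_nonneg _).trans h3
  have h7 : 0 ≤ |α| * (r / σ) := by positivity
  exact ⟨by linarith, by linarith⟩

lemma I4_sc {σ α : ℝ} (hσ : 0 < σ) (c : ℝ) {G : ℝ × ℝ → ℂ} (hG : Nice G)
    (hs : ∀ ζ, G ζ ≠ 0 → ζ.1 ≠ 0) :
    I4 (Uo c G) = ENNReal.ofReal (σ ^ 6) * I4 (Uo (σ * c) (sc σ α G)) := by
  unfold I4
  set F : ℝ × ℝ → ℝ≥0∞ := fun z => ‖T9h44.LG.Ext (Uo (σ * c) (sc σ α G)) z‖ₑ ^ 4 with hF
  have hFm : Measurable F := by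
    have := Pool.Agent.T9h89.LG.meas_ExtU (nice_sc (α := α) hσ hG).1
    exact (this.comp (measurable_const.prodMk measurable_id)).enorm.pow_const 4
  have hd : σ * σ - (σ * α) * 0 ≠ 0 := by
    rw [mul_zero, sub_zero]; positivity
  have h1 := lint_lin hd (f := fun z => F (z + (σ * α ^ 2 * c, 2 * σ * α * c)))
    (hFm.comp (measurable_id.add_const _))
  rw [lintegral_add_right_eq_self F] at h1
  have e1 : σ * σ - (σ * α) * 0 = σ ^ 2 := by ring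
  rw [e1, abs_of_pos (by positivity)] at h1
  have e2 : ∀ z, ‖T9h44.LG.Ext (Uo c G) z‖ₑ ^ 4 = ENNReal.ofReal (σ ^ 8) *
      F (lin σ (σ * α) 0 σ z + (σ * α ^ 2 * c, 2 * σ * α * c)) := by
    intro z
    rw [Ext_sc hσ c hG.1 hs (α := α) z, enorm_mul, mul_pow]
    congr 1
    rw [← ofReal_norm, Complex.norm_real, Real.norm_eq_abs, abs_of_pos (by positivity),
      ← ENNReal.ofReal_pow (by positivity), ← pow_mul]
  simp_rw [e2]
  rw [lintegral_const_mul' _ _ ENNReal.ofReal_ne_top, h1, ← mul_assoc,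
    ← ENNReal.ofReal_mul (by positivity)]
  congr 2
  field_simp

end Pool.Agent.T9h31.LG
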