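import Pool.Agent.T9h31.LG.Gen

/-!
# (GEN) of `T9h44.LG.Spec`, the core (helper31)
-/

set_option autoImplicit false

namespace Pool.Agent.T9h31.LG

open MeasureTheory Real Pool.Agent.T9h44.LG
open scoped ENNReal ComplexConjugate ContDiff Topology

lemma nice_Uo {G : ℝ × ℝ → ℂ} (hG : Nice G) (γ : ℝ) : Nice (Uo γ G) := by
  refine nice_mul_bdd hG ?_ fun ζ => (norm_ee _).le
  exact measurable_ee.comp (Pool.Agent.T9h89.LG.meas_qq.const_mul γ)

lemma cls_Uo {δ : ℝ} {G : ℝ × ℝ → ℂ} (hG : Cls δ G) (γ : ℝ) : Cls δ (Uo γ G) := by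
  refine ⟨nice_Uo hG.1 γ, fun ζ hζ => hG.2 ζ ?_⟩
  intro h
  apply hζ
  unfold Uo
  rw [h, mul_zero]

lemma cls_one {δ : ℝ} (hδ : δ ≤ 1) {G : ℝ × ℝ → ℂ} (hG : Cls δ G) : Cls 1 G := by
  refine ⟨hG.1, fun ζ hζ => ?_⟩
  obtain ⟨h1, h2, h3⟩ := hG.2 ζ hζ
  exact ⟨h1, by linarith, h3⟩

lemma lint_mul_left {σ : ℝ} (hσ : 0 < σ) {f : ℝ → ℝ≥0∞} (hf : Measurable f) :
    ∫⁻ c : ℝ, f (σ * c) = ENNReal.ofReal σ⁻¹ * ∫⁻ γ, f γ := by
  have h := Real.map_volume_mul_left hσ.ne'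
  rw [← lintegral_map hf (measurable_const_mul σ), h, lintegral_smul_measure, smul_eq_mul,
    abs_of_pos (inv_pos.2 hσ)]

lemma psi3_ge {x : ℝ} (hx : |x| ≤ 1) : 1 ≤ 8 * psi3 x := by
  unfold psi3
  have h1 : x ^ 2 ≤ 1 := by
    rw [← sq_abs]
    exact pow_le_one₀ (abs_nonneg _) hx
  have h2 : (1 + x ^ 2) ^ 3 ≤ 8 := by
    calc (1 + x ^ 2) ^ 3 ≤ (2 : ℝ) ^ 3 := pow_le_pow_left₀ (by positivity) (by linarith) 3
      _ = 8 := by norm_num
  have h3 : 0 < (1 + x ^ 2) ^ 3 := by positivity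
  rw [← div_eq_mul_inv, le_div_iff₀ h3]
  linarith

lemma core (hfin : S_fin) (hlc : S_lc) (hbs : S_bs) (ε : ℝ) (hε : 0 < ε) :
    ∃ (l : ℕ) (K : ℝ), 1 ≤ l ∧ 0 < K ∧ ∀ H, Cls ((4 : ℝ) ^ l)⁻¹ H → ∀ σ : ℝ, 0 < σ →
      ∫⁻ c in Set.Icc (-4 : ℝ) 4, I4 (Uo (σ * c) H) ≤ ENNReal.ofReal (K * (1 + σ) ^ ε) * I4 H := by
  obtain ⟨l, Cf, hl, hCf, hf⟩ := hfin ε hε
  obtain ⟨Cl, hCl, hlc⟩ := hlc
  obtain ⟨Cb, hCb, hbs⟩ := hbs
  refine ⟨l, 8 * Cl * (625 * Cb) + 128 * Cl * Cf * 16 ^ ε, hl, by positivity, ?_⟩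
  intro H hH σ hσ
  have hδ : ((4 : ℝ) ^ l)⁻¹ ≤ 1 := inv_le_one_of_one_le₀ (one_le_pow₀ (by norm_num))
  have hH1 : Cls 1 H := cls_one hδ hH
  have hL : ∀ γ, I4 (Uo γ H) ≤ ENNReal.ofReal Cl * Pool.Agent.T9h89.LG.fn 0 1 1 H γ := by
    intro γ
    exact hlc (Uo γ H) (cls_Uo hH1 γ)
  have hIm := measurable_I4 hH.1.1
  have hfm := Pool.Agent.T9h89.LG.meas_fn hH.1.1 0 1 1
  have hεp : 0 < (1 + σ) ^ ε := Real.rpow_pos_of_pos (by linarith) ε
  have hε1 : 1 ≤ (1 + σ) ^ ε := Real.one_le_rpow (by linarith) hε.le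
  rcases le_or_gt σ 1 with h1 | h1
  · -- small frequencies
    have h2 : ∀ c ∈ Set.Icc (-4 : ℝ) 4, I4 (Uo (σ * c) H) ≤
        ENNReal.ofReal Cl * (ENNReal.ofReal (625 * Cb) * I4 H) := by
      intro c hc
      refine (hL _).trans (mul_le_mul' le_rfl ?_)
      have h3 := hbs H hH1 1 le_rfl (σ * c)
      refine h3.trans (mul_le_mul' (ENNReal.ofReal_le_ofReal ?_) le_rfl)
      have h4 : |σ * c| ≤ 4 := by
        rw [abs_mul, abs_of_pos hσ]
        have : |c| ≤ 4 := abs_le.2 hc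
        nlinarith [abs_nonneg c]
      rw [div_one]
      calc Cb * (1 + |σ * c|) ^ 4 ≤ Cb * 5 ^ 4 := by
            refine mul_le_mul_of_nonneg_left ?_ hCb.le
            exact pow_le_pow_left₀ (by positivity) (by linarith) 4
        _ = 625 * Cb := by norm_num; ring
    refine (setLIntegral_mono' measurableSet_Icc h2).trans ?_
    rw [setLIntegral_const, Real.volume_Icc]
    rw [mul_assoc, mul_assoc, mul_comm (I4 H), ← mul_assoc, ← mul_assoc,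
      ← ENNReal.ofReal_mul (by positivity), ← ENNReal.ofReal_mul (by positivity)]
    refine mul_le_mul' (ENNReal.ofReal_le_ofReal ?_) le_rfl
    have h5 : 0 ≤ 128 * Cl * Cf * 16 ^ ε := by positivity
    have h6 : 0 ≤ 8 * Cl * (625 * Cb) := by positivity
    calc Cl * (625 * Cb) * (4 - -4) = 8 * Cl * (625 * Cb) * 1 := by ring
      _ ≤ (8 * Cl * (625 * Cb) + 128 * Cl * Cf * 16 ^ ε) * (1 + σ) ^ ε :=
        mul_le_mul (by linarith) hε1 zero_le_one (by linarith)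
  · -- large frequencies
    obtain ⟨n, hn1, hn2⟩ := exists_nat_pow_near (x := 4 * σ) (y := (4 : ℝ)) (by linarith)
      (by norm_num)
    set M : ℕ := n + 1 with hM
    have hM1 : 4 * σ ≤ (4 : ℝ) ^ M := hn2.le
    have hM2 : (4 : ℝ) ^ M ≤ 16 * σ := by
      rw [hM, pow_succ]
      linarith
    have hMp : (0 : ℝ) < 4 ^ M := by positivity
    have h2 : ∫⁻ c in Set.Icc (-4 : ℝ) 4, I4 (Uo (σ * c) H) ≤
        ∫⁻ c : ℝ, ENNReal.ofReal (8 * psi3 (σ * c / 4 ^ M)) * I4 (Uo (σ * c) H) := by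
      refine le_trans (setLIntegral_mono' measurableSet_Icc fun c hc => ?_)
        (setLIntegral_le_lintegral (Set.Icc (-4 : ℝ) 4) _)
      refine le_mul_of_one_le_left zero_le ?_
      rw [← ENNReal.ofReal_one]
      refine ENNReal.ofReal_le_ofReal (psi3_ge ?_)
      rw [abs_div, abs_of_pos hMp, div_le_one hMp, abs_mul, abs_of_pos hσ]
      have : |c| ≤ 4 := abs_le.2 hc
      nlinarith [abs_nonneg c]
    have hmeas : Measurable fun γ : ℝ => ENNReal.ofReal (8 * psi3 (γ / 4 ^ M)) * I4 (Uo γ H) := by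
      refine Measurable.mul (Measurable.ennreal_ofReal ?_) hIm
      exact (Pool.Agent.T9h89.LG.meas_psi3.comp (measurable_id.div_const _)).const_mul 8
    have h3 := lint_mul_left hσ hmeas
    rw [h3] at h2
    have h4 : ∫⁻ γ : ℝ, ENNReal.ofReal (8 * psi3 (γ / 4 ^ M)) * I4 (Uo γ H) ≤
        ENNReal.ofReal (8 * Cl) * TT 1 (4 ^ M) H := by
      unfold TT
      rw [← lintegral_const_mul' _ _ ENNReal.ofReal_ne_top]
      refine lintegral_mono fun γ => ?_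
      simp only
      have hp : 0 ≤ psi3 (γ / 4 ^ M) := by unfold psi3; positivity
      calc ENNReal.ofReal (8 * psi3 (γ / 4 ^ M)) * I4 (Uo γ H) ≤
          ENNReal.ofReal (8 * psi3 (γ / 4 ^ M)) *
            (ENNReal.ofReal Cl * Pool.Agent.T9h89.LG.fn 0 1 1 H γ) := mul_le_mul' le_rfl (hL γ)
        _ = _ := by
          unfold Pool.Agent.T9h89.LG.fn
          rw [← mul_assoc, ← mul_assoc, ← ENNReal.ofReal_mul (by positivity),
            ← ENNReal.ofReal_mul (by positivity)]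
          congr 2
          ring
    have h5 := hf M H hH
    refine h2.trans ((mul_le_mul' le_rfl (h4.trans (mul_le_mul' le_rfl h5))).trans ?_)
    rw [← mul_assoc, ← mul_assoc, ← ENNReal.ofReal_mul (by positivity),
      ← ENNReal.ofReal_mul (by positivity)]
    refine mul_le_mul' (ENNReal.ofReal_le_ofReal ?_) le_rfl
    have h6 : (4 : ℝ) ^ (ε * M) ≤ 16 ^ ε * (1 + σ) ^ ε := by
      rw [mul_comm ε, Real.rpow_mul (by norm_num), Real.rpow_natCast,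
        ← Real.mul_rpow (by norm_num) (by linarith)]
      exact Real.rpow_le_rpow hMp.le (by linarith) hε.le
    have h7 : σ⁻¹ * (4 : ℝ) ^ M ≤ 16 := by
      rw [inv_mul_le_iff₀ hσ]
      linarith
    have h8 : (0 : ℝ) < 4 ^ (ε * M) := by positivity
    calc σ⁻¹ * (8 * Cl) * (Cf * 4 ^ (ε * M) * 4 ^ M) =
        8 * Cl * Cf * 4 ^ (ε * M) * (σ⁻¹ * 4 ^ M) := by ring
      _ ≤ 8 * Cl * Cf * 4 ^ (ε * M) * 16 := mul_le_mul_of_nonneg_left h7 (by positivity)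
      _ = 128 * Cl * Cf * 4 ^ (ε * M) := by ring
      _ ≤ 128 * Cl * Cf * (16 ^ ε * (1 + σ) ^ ε) := mul_le_mul_of_nonneg_left h6 (by positivity)
      _ = (128 * Cl * Cf * 16 ^ ε) * (1 + σ) ^ ε := by ring
      _ ≤ _ := by
        refine mul_le_mul_of_nonneg_right ?_ hεp.le
        have : 0 ≤ 8 * Cl * (625 * Cb) := by positivity
        linarith

end Pool.Agent.T9h31.LG
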