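import Pool.Agent.T9h31.LG.Gen2

/-!
# (GEN) of `T9h44.LG.Spec` (helper31)
-/

set_option autoImplicit false

namespace Pool.Agent.T9h31.LG

open MeasureTheory Real Pool.Agent.T9h44.LG
open scoped ENNReal ComplexConjugate ContDiff Topology

/-- a wider cutoff -/
noncomputable def bw4 (w : ℝ) : ℝ := smoothTransition (2 * w - 1) * smoothTransition (5 - w)

noncomputable def beta1 (ζ : ℝ × ℝ) : ℂ := ((bw4 ζ.1 * bx ζ.2 : ℝ) : ℂ)

lemma bw4_eq {w : ℝ} (h1 : 1 ≤ w) (h2 : w ≤ 4) : bw4 w = 1 := by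
  unfold bw4
  rw [smoothTransition.one_of_one_le (by linarith), smoothTransition.one_of_one_le (by linarith),
    one_mul]

lemma bw4_zero {w : ℝ} (h : ¬ (1 / 2 ≤ w ∧ w ≤ 5)) : bw4 w = 0 := by
  unfold bw4
  rw [not_and_or] at h
  rcases h with h | h
  · rw [smoothTransition.zero_of_nonpos (by linarith), zero_mul]
  · rw [smoothTransition.zero_of_nonpos (x := 5 - w) (by linarith), mul_zero]

lemma beta1_eq {ζ : ℝ × ℝ} (h1 : 1 ≤ ζ.1) (h2 : ζ.1 ≤ 4) (h3 : |ζ.2| ≤ 17) : beta1 ζ = 1 := by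
  unfold beta1
  rw [bw4_eq h1 h2, bx_eq h3]
  simp

lemma test_beta1 : Test beta1 := by
  constructor
  · unfold beta1 bw4 bx
    refine Complex.ofRealCLM.contDiff.comp (ContDiff.mul (ContDiff.mul ?_ ?_) (ContDiff.mul ?_ ?_))
    · exact st_contDiff.comp (by fun_prop)
    · exact st_contDiff.comp (by fun_prop)
    · exact st_contDiff.comp (by fun_prop)
    · exact st_contDiff.comp (by fun_prop)
  · refine HasCompactSupport.intro (K := Set.Icc (1 / 2 : ℝ) 5 ×ˢ Set.Icc (-18 : ℝ) 18)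
      (isCompact_Icc.prod isCompact_Icc) fun ζ hζ => ?_
    rw [Set.mem_prod, not_and_or] at hζ
    unfold beta1
    rcases hζ with h | h
    · rw [bw4_zero h]; simp
    · rw [bx_zero h]; simp

lemma tele (x : ℝ) (N : ℕ) : ∑ k ∈ Finset.range N, chi (x - k) =
    smoothTransition (x + 1) - smoothTransition (x - N + 1) := by
  induction N with
  | zero => simp
  | succ N ih =>
    rw [Finset.sum_range_succ, ih]
    unfold chi
    have e1 : x - (N + 1 : ℕ) + 1 = x - N := by push_cast; ring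
    rw [e1]
    ring

/-- a piece -/
noncomputable def pc (n : ℕ) (a b : ℝ) (G : ℝ × ℝ → ℂ) (ζ : ℝ × ℝ) : ℂ :=
  (chc (n * ζ.1 - a) * chc (al ζ - b)) * G ζ

lemma chc_ne {x : ℝ} (h : chc x ≠ 0) : |x| < 1 := by
  by_contra hc
  rw [not_lt] at hc
  apply h
  unfold chc
  rw [chi_zero hc, Complex.ofReal_zero]

lemma norm_chc_le (x : ℝ) : ‖chc x‖ ≤ 1 := norm_chi_le x

lemma nice_pc {G : ℝ × ℝ → ℂ} (hG : Nice G) (n : ℕ) (a b : ℝ) : Nice (pc n a b G) := by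
  refine nice_mul_bdd hG ?_ fun ζ => ?_
  · have h1 : Measurable chc := contDiff_chc.continuous.measurable
    refine (h1.comp ?_).mul (h1.comp (measurable_al.sub_const _))
    exact (measurable_fst.const_mul _).sub_const _
  · rw [norm_mul]
    exact mul_le_one₀ (norm_chc_le _) (norm_nonneg _) (norm_chc_le _)

/-- the index set -/
def PP (n J : ℕ) : Finset (ℕ × ℕ) := Finset.range (3 * n + 1) ×ˢ Finset.range (2 * J + 1)

lemma sum_pc {n J : ℕ} {G : ℝ × ℝ → ℂ}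
    (hs : ∀ ζ, G ζ ≠ 0 → 1 ≤ ζ.1 ∧ ζ.1 ≤ 4 ∧ |al ζ| ≤ J) (ζ : ℝ × ℝ) :
    G ζ = ∑ p ∈ PP n J, pc n (n + p.1) (p.2 - J) G ζ := by
  by_cases h0 : G ζ = 0
  · unfold pc
    rw [h0]
    simp
  · obtain ⟨h1, h2, h3⟩ := hs ζ h0
    rw [abs_le] at h3
    have hn : (0 : ℝ) ≤ n := Nat.cast_nonneg n
    unfold PP pc
    rw [← Finset.sum_mul, Finset.sum_product]
    have e1 : ∑ k ∈ Finset.range (3 * n + 1), ∑ k' ∈ Finset.range (2 * J + 1),
        chc (n * ζ.1 - ((n : ℝ) + ((k, k').1 : ℕ))) * chc (al ζ - (((k, k').2 : ℕ) - (J : ℝ))) =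
        (∑ k ∈ Finset.range (3 * n + 1), chc (n * ζ.1 - ((n : ℝ) + (k : ℕ)))) *
          ∑ k' ∈ Finset.range (2 * J + 1), chc (al ζ - ((k' : ℕ) - (J : ℝ))) := by
      rw [Finset.sum_mul_sum]
    rw [e1]
    have e2 : ∑ k ∈ Finset.range (3 * n + 1), chc (n * ζ.1 - ((n : ℝ) + (k : ℕ))) = 1 := by
      have h4 := tele (n * ζ.1 - n) (3 * n + 1)
      rw [smoothTransition.one_of_one_le (by nlinarith),
        smoothTransition.zero_of_nonpos (by push_cast; nlinarith), sub_zero] at h4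
      have h5 : ∑ k ∈ Finset.range (3 * n + 1), chc (n * ζ.1 - ((n : ℝ) + (k : ℕ))) =
          ((∑ k ∈ Finset.range (3 * n + 1), chi (n * ζ.1 - n - k) : ℝ) : ℂ) := by
        push_cast
        refine Finset.sum_congr rfl fun k _ => ?_
        unfold chc
        congr 2
        ring
      rw [h5, h4, Complex.ofReal_one]
    have e3 : ∑ k' ∈ Finset.range (2 * J + 1), chc (al ζ - ((k' : ℕ) - (J : ℝ))) = 1 := by
      have h4 := tele (al ζ + J) (2 * J + 1)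
      rw [smoothTransition.one_of_one_le (by linarith),
        smoothTransition.zero_of_nonpos (by push_cast; linarith), sub_zero] at h4
      have h5 : ∑ k' ∈ Finset.range (2 * J + 1), chc (al ζ - ((k' : ℕ) - (J : ℝ))) =
          ((∑ k' ∈ Finset.range (2 * J + 1), chi (al ζ + J - k') : ℝ) : ℂ) := by
        push_cast
        refine Finset.sum_congr rfl fun k _ => ?_
        unfold chc
        congr 2
        ring
      rw [h5, h4, Complex.ofReal_one]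
    rw [e2, e3, one_mul, one_mul]

/-- the multiplier of a piece in its frame -/
noncomputable def mm (n : ℕ) (a : ℝ) (ζ : ℝ × ℝ) : ℂ := (chc (n * ζ.1 - a) * chc (qa ζ)) * beta1 ζ

lemma test_mm (n : ℕ) (a : ℝ) : Test (mm n a) := by
  refine test_mul (ContDiff.mul ?_ ?_) test_beta1
  · refine contDiff_chc.comp ?_
    exact (contDiff_const.mul contDiff_fst).sub contDiff_const
  · exact contDiff_chc.comp contDiff_qa

lemma Uo_zero (G : ℝ × ℝ → ℂ) : Uo 0 G = G := by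
  ext ζ
  unfold Uo
  rw [zero_mul, ee_zero, one_mul]

lemma I4_sc0 {σ α : ℝ} (hσ : 0 < σ) {G : ℝ × ℝ → ℂ} (hG : Nice G)
    (hs : ∀ ζ, G ζ ≠ 0 → ζ.1 ≠ 0) : I4 G = ENNReal.ofReal (σ ^ 6) * I4 (sc σ α G) := by
  have := I4_sc (α := α) hσ 0 hG hs
  rwa [mul_zero, Uo_zero, Uo_zero] at this

lemma pc_sc (n : ℕ) (a b : ℝ) {G : ℝ × ℝ → ℂ} (hs : ∀ ζ, G ζ ≠ 0 → 1 ≤ ζ.1 ∧ ζ.1 ≤ 4) :
    sc 1 b (pc n a b G) = fun ζ => mm n a ζ * sc 1 b G ζ := by
  ext ζ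
  unfold sc pc
  by_cases h0 : G (lin 1 0 (1 * b) 1 ζ) = 0
  · rw [h0, mul_zero, mul_zero]
  · obtain ⟨h1, h2⟩ := hs _ h0
    have hl := lin_eq 1 b ζ
    rw [hl] at h1 h2 ⊢
    simp only [one_mul] at h1 h2 ⊢
    have hw : ζ.1 ≠ 0 := by linarith
    have hal : al (ζ.1, b * ζ.1 + ζ.2) - b = ζ.2 / ζ.1 := by
      unfold al
      simp only
      field_simp
      ring
    rw [hal]
    have hqa : qa ζ = ζ.2 / ζ.1 := by
      unfold qa
      rw [theta_eq (by linarith)]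
      rfl
    unfold mm
    rw [hqa]
    by_cases hc : chc (ζ.2 / ζ.1) = 0
    · rw [hc]; simp
    · have h3 := chc_ne hc
      have h7 : |ζ.2| ≤ 17 := by
        have h8 : ζ.2 = ζ.2 / ζ.1 * ζ.1 := by field_simp
        rw [h8, abs_mul, abs_of_pos (by linarith : (0 : ℝ) < ζ.1)]
        nlinarith [abs_nonneg (ζ.2 / ζ.1)]
      rw [beta1_eq h1 h2 h7, mul_one]

lemma I4_pc (n : ℕ) (a b : ℝ) {G : ℝ × ℝ → ℂ} (hG : Nice G)
    (hs : ∀ ζ, G ζ ≠ 0 → 1 ≤ ζ.1 ∧ ζ.1 ≤ 4) :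
    I4 (pc n a b G) ≤ (∫⁻ z, ‖T9h44.LG.Ext (mm n a) z‖ₑ) ^ 4 * I4 G := by
  have h0 : ∀ ζ, G ζ ≠ 0 → ζ.1 ≠ 0 := fun ζ h => by
    have := (hs ζ h).1
    intro h'
    linarith
  have h0' : ∀ ζ, pc n a b G ζ ≠ 0 → ζ.1 ≠ 0 := fun ζ h => h0 ζ (right_ne_zero_of_mul h)
  rw [I4_sc0 (α := b) one_pos (nice_pc hG n a b) h0', I4_sc0 (α := b) one_pos hG h0, pc_sc n a b hs]
  simp only [one_pow, ENNReal.ofReal_one, one_mul]
  exact mult4 (test_mm n a) (nice_sc one_pos hG)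

/-- the scale of a piece -/
noncomputable def sg (n k : ℕ) : ℝ := max 1 (((n : ℝ) + k - 1) / n)

lemma cls_pc {n : ℕ} (hn : 1 ≤ n) (k : ℕ) (b : ℝ) {δ : ℝ} (hδ : 2 / n ≤ δ) {G : ℝ × ℝ → ℂ}
    (hG : Nice G) (hs : ∀ ζ, G ζ ≠ 0 → 1 ≤ ζ.1 ∧ ζ.1 ≤ 4) :
    Cls δ (sc (sg n k) b (pc n (n + k) b G)) := by
  have hn0 : (0 : ℝ) < n := by exact_mod_cast hn
  have hσ1 : 1 ≤ sg n k := le_max_left _ _
  have hσ2 : ((n : ℝ) + k - 1) / n ≤ sg n k := le_max_right _ _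
  have hσ0 : 0 < sg n k := by linarith
  refine ⟨nice_sc hσ0 (nice_pc hG _ _ _), fun ζ hζ => ?_⟩
  unfold sc pc at hζ
  have hGz := right_ne_zero_of_mul hζ
  have hcc := left_ne_zero_of_mul hζ
  have hc1 := chc_ne (left_ne_zero_of_mul hcc)
  have hc2 := chc_ne (right_ne_zero_of_mul hcc)
  have h1 := hs _ hGz
  rw [lin_eq] at hc1 hc2 h1
  simp only at hc1 h1
  set σ := sg n k
  rw [abs_lt] at hc1
  rw [div_le_iff₀ hn0] at hσ2
  have hw1 : 1 ≤ ζ.1 := by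
    have h2 : σ ≤ σ * ζ.1 := by
      have : σ = max 1 (((n : ℝ) + k - 1) / n) := rfl
      rw [this]
      refine max_le (by rw [← this]; exact h1.1) ?_
      rw [← this, div_le_iff₀ hn0]
      nlinarith [hc1.1]
    exact le_of_mul_le_mul_left (by rw [mul_one]; exact h2) hσ0
  have hw2 : ζ.1 ≤ 1 + δ := by
    have h3 : n * (σ * ζ.1) < n * σ + 2 := by nlinarith [hc1.2]
    have h4 : ζ.1 ≤ 1 + 2 / (n * σ) := by
      rw [← sub_le_iff_le_add', le_div_iff₀ (by positivity)]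
      nlinarith
    have h5 : 2 / (n * σ) ≤ 2 / (n : ℝ) := by
      refine div_le_div_of_nonneg_left (by norm_num) hn0 ?_
      nlinarith
    linarith
  have hw0 : ζ.1 ≠ 0 := by linarith
  have hal : al (σ * ζ.1, σ * (b * ζ.1 + ζ.2)) - b = ζ.2 / ζ.1 := by
    unfold al
    simp only
    field_simp
    ring
  rw [hal, abs_div, abs_of_pos (by linarith : (0 : ℝ) < ζ.1), div_lt_one (by linarith)] at hc2
  exact ⟨hw1, hw2, by linarith⟩

lemma sg_le {n k : ℕ} (hn : 1 ≤ n) (hk : k ≤ 3 * n) : sg n k ≤ 4 := by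
  have hn0 : (0 : ℝ) < n := by exact_mod_cast hn
  have hk' : (k : ℝ) ≤ 3 * n := by exact_mod_cast hk
  refine max_le (by norm_num) ?_
  rw [div_le_iff₀ hn0]
  linarith

/-- the fourth power of a sum -/
lemma four_sum {ι : Type*} (s : Finset ι) (f : ι → ℝ≥0∞) :
    (∑ i ∈ s, f i) ^ 4 ≤ (s.card : ℝ≥0∞) ^ 3 * ∑ i ∈ s, f i ^ 4 := by
  have h := ENNReal.rpow_sum_le_const_mul_sum_rpow s f (p := 4) (by norm_num)
  have e : ((4 : ℝ) - 1) = ((3 : ℕ) : ℝ) := by norm_num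
  rw [e, ENNReal.rpow_natCast] at h
  have e4 : ∀ x : ℝ≥0∞, x ^ (4 : ℝ) = x ^ 4 := fun x => by
    rw [show (4 : ℝ) = ((4 : ℕ) : ℝ) by norm_num, ENNReal.rpow_natCast]
  simpa only [e4] using h

lemma I4_sum {ι : Type*} (s : Finset ι) {F : ι → ℝ × ℝ → ℂ} (hF : ∀ i ∈ s, Nice (F i))
    {G : ℝ × ℝ → ℂ} (hG : ∀ ζ, G ζ = ∑ i ∈ s, F i ζ) :
    I4 G ≤ (s.card : ℝ≥0∞) ^ 3 * ∑ i ∈ s, I4 (F i) := by
  have h1 : ∀ z, T9h44.LG.Ext G z = ∑ i ∈ s, T9h44.LG.Ext (F i) z := by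
    intro z
    unfold T9h44.LG.Ext
    rw [← integral_finsetSum]
    · refine integral_congr_ae (Filter.Eventually.of_forall fun ζ => ?_)
      simp only
      rw [hG ζ, Finset.mul_sum]
    · intro i hi
      refine (Nice.integrable (hF i hi)).bdd_mul (c := 1) ?_ ?_
      · exact (continuous_ee.comp (by fun_prop)).aestronglyMeasurable
      · exact Filter.Eventually.of_forall fun ζ => (norm_ee _).le
  unfold I4
  have h2 : ∀ z, ‖T9h44.LG.Ext G z‖ₑ ^ 4 ≤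
      (s.card : ℝ≥0∞) ^ 3 * ∑ i ∈ s, ‖T9h44.LG.Ext (F i) z‖ₑ ^ 4 := by
    intro z
    rw [h1 z]
    refine le_trans ?_ (four_sum s _)
    gcongr
    exact enorm_sum_le _ _
  refine (lintegral_mono h2).trans (le_of_eq ?_)
  rw [lintegral_const_mul', lintegral_finsetSum']
  · intro i hi
    exact ((continuous_Ext (hF i hi)).measurable.enorm.pow_const 4).aemeasurable
  · exact ENNReal.pow_ne_top (ENNReal.natCast_ne_top _)

theorem s_gen : S_fin → S_lc → S_bs → S_gen := by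
  intro hfin hlc hbs ε hε
  obtain ⟨l, K, hl, hK, hcore⟩ := core hfin hlc hbs ε hε
  set n : ℕ := 2 * 4 ^ l with hn
  have hn1 : 1 ≤ n := by
    have : 0 < 4 ^ l := by positivity
    omega
  have hδ : (2 : ℝ) / n ≤ ((4 : ℝ) ^ l)⁻¹ := by
    rw [hn]
    push_cast
    have : (0 : ℝ) < 4 ^ l := by positivity
    rw [← one_div, div_le_div_iff₀ (by positivity) this]
    linarith
  set Di : ℕ → ℝ≥0∞ := fun k => (∫⁻ z, ‖T9h44.LG.Ext (mm n (n + k)) z‖ₑ) ^ 4 with hDi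
  have hDit : ∀ k, Di k < ⊤ := fun k =>
    ENNReal.pow_lt_top (Ext_integrable (test_mm n (n + k))).2
  set D : ℝ≥0∞ := ∑ k ∈ Finset.range (3 * n + 1), Di k with hD
  have hDt : D < ⊤ := ENNReal.sum_lt_top.2 fun k _ => hDit k
  refine ⟨(5 * (3 * n + 1)) ^ 4 * (K * 4 ^ ε) * (D.toReal + 1), 4, by positivity, by norm_num, ?_⟩
  intro s₀ A hs0 hA G hG hGs
  set G' : ℝ × ℝ → ℂ := sc s₀ 0 G with hG'
  have hG'n : Nice G' := nice_sc hs0 hG
  have hGne : ∀ ζ, G ζ ≠ 0 → ζ.1 ≠ 0 := fun ζ h => by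
    have := (hGs ζ h).1
    intro h'
    linarith
  set J : ℕ := ⌈A⌉₊ with hJ
  have hJA : A ≤ J := Nat.le_ceil A
  have hJ1 : (J : ℝ) < A + 1 := Nat.ceil_lt_add_one (by linarith)
  have hs' : ∀ ζ, G' ζ ≠ 0 → 1 ≤ ζ.1 ∧ ζ.1 ≤ 4 ∧ |al ζ| ≤ J := by
    intro ζ hζ
    have h1 := hGs _ hζ
    rw [lin_eq] at h1
    simp only [zero_mul, zero_add] at h1
    have hw1 : 1 ≤ ζ.1 := le_of_mul_le_mul_left (by linarith [h1.1]) hs0
    have hw2 : ζ.1 ≤ 4 := le_of_mul_le_mul_left (by linarith [h1.2.1]) hs0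
    refine ⟨hw1, hw2, ?_⟩
    unfold al
    rw [abs_div, abs_of_pos (by linarith : (0 : ℝ) < ζ.1), div_le_iff₀ (by linarith)]
    have h2 := h1.2.2
    rw [abs_mul, abs_of_pos hs0] at h2
    have h3 : |ζ.2| ≤ A * ζ.1 := le_of_mul_le_mul_left (by linarith) hs0
    nlinarith
  have hs2 : ∀ ζ, G' ζ ≠ 0 → 1 ≤ ζ.1 ∧ ζ.1 ≤ 4 := fun ζ h => ⟨(hs' ζ h).1, (hs' ζ h).2.1⟩
  have hcard : ((PP n J).card : ℝ) ≤ 5 * (3 * n + 1) * A := by
    unfold PP
    rw [Finset.card_product, Finset.card_range, Finset.card_range]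
    push_cast
    nlinarith [Nat.cast_nonneg (α := ℝ) n]
  -- a piece
  have hpiece : ∀ p ∈ PP n J, ∫⁻ c in Set.Icc (-4 : ℝ) 4,
      I4 (Uo (s₀ * c) (pc n (n + p.1) (p.2 - J) G')) ≤
        ENNReal.ofReal (K * (4 ^ ε * (1 + s₀) ^ ε)) * (D * I4 G') := by
    intro p hp
    unfold PP at hp
    rw [Finset.mem_product, Finset.mem_range, Finset.mem_range] at hp
    set Q := pc n (n + p.1) (p.2 - J) G' with hQ
    have hQn : Nice Q := nice_pc hG'n _ _ _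
    have hQs : ∀ ζ, Q ζ ≠ 0 → ζ.1 ≠ 0 := fun ζ h => by
      have := (hs2 ζ (right_ne_zero_of_mul h)).1
      intro h'
      linarith
    have hσ1 : 1 ≤ sg n p.1 := le_max_left _ _
    have hσ0 : 0 < sg n p.1 := by linarith
    have hσ2 : sg n p.1 ≤ 4 := sg_le hn1 (by omega)
    have hH := cls_pc hn1 p.1 ((p.2 : ℝ) - J) hδ hG'n hs2
    have h1 : ∀ c : ℝ, I4 (Uo (s₀ * c) Q) = ENNReal.ofReal (sg n p.1 ^ 6) *
        I4 (Uo (sg n p.1 * s₀ * c) (sc (sg n p.1) (p.2 - J) Q)) := by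
      intro c
      rw [I4_sc (α := (p.2 : ℝ) - J) hσ0 (s₀ * c) hQn hQs, mul_assoc (sg n p.1)]
    have h2 := hcore _ hH (sg n p.1 * s₀) (by positivity)
    simp_rw [h1]
    rw [lintegral_const_mul' _ _ ENNReal.ofReal_ne_top]
    have h3 : ENNReal.ofReal (K * (1 + sg n p.1 * s₀) ^ ε) ≤
        ENNReal.ofReal (K * (4 ^ ε * (1 + s₀) ^ ε)) := by
      refine ENNReal.ofReal_le_ofReal (mul_le_mul_of_nonneg_left ?_ hK.le)
      rw [← Real.mul_rpow (by norm_num) (by linarith)]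
      refine Real.rpow_le_rpow (by positivity) ?_ hε.le
      nlinarith
    calc ENNReal.ofReal (sg n p.1 ^ 6) * ∫⁻ c in Set.Icc (-4 : ℝ) 4,
          I4 (Uo (sg n p.1 * s₀ * c) (sc (sg n p.1) (p.2 - J) Q)) ≤
        ENNReal.ofReal (sg n p.1 ^ 6) * (ENNReal.ofReal (K * (1 + sg n p.1 * s₀) ^ ε) *
          I4 (sc (sg n p.1) (p.2 - J) Q)) := mul_le_mul' le_rfl h2
      _ = ENNReal.ofReal (K * (1 + sg n p.1 * s₀) ^ ε) * I4 Q := by
          rw [I4_sc0 (α := (p.2 : ℝ) - J) hσ0 hQn hQs]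
          ring
      _ ≤ ENNReal.ofReal (K * (4 ^ ε * (1 + s₀) ^ ε)) * (Di p.1 * I4 G') :=
          mul_le_mul' h3 (I4_pc n _ _ hG'n hs2)
      _ ≤ _ := by
          refine mul_le_mul' le_rfl (mul_le_mul' ?_ le_rfl)
          exact Finset.single_le_sum (f := Di) (fun _ _ => zero_le)
            (Finset.mem_range.2 (by omega))
  -- the sum
  have hsum : ∀ c : ℝ, I4 (Uo (s₀ * c) G') ≤ ((PP n J).card : ℝ≥0∞) ^ 3 *
      ∑ p ∈ PP n J, I4 (Uo (s₀ * c) (pc n (n + p.1) (p.2 - J) G')) := by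
    intro c
    refine I4_sum (PP n J) (fun p _ => nice_Uo (nice_pc hG'n _ _ _) _) fun ζ => ?_
    unfold Uo
    rw [← Finset.mul_sum, ← sum_pc hs' ζ]
  have hmeas : ∀ p : ℕ × ℕ, Measurable fun c : ℝ =>
      I4 (Uo (s₀ * c) (pc n (n + p.1) (p.2 - J) G')) := fun p =>
    (measurable_I4 (nice_pc hG'n _ _ _).1).comp (measurable_const_mul s₀)
  have hI : ∀ c : ℝ, ∫⁻ z : ℝ × ℝ, ‖T9h44.LG.Ext (Uo c G) z‖ₑ ^ 4 =
      ENNReal.ofReal (s₀ ^ 6) * I4 (Uo (s₀ * c) G') := fun c => I4_sc hs0 c hG hGne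
  simp_rw [hI]
  rw [lintegral_const_mul' _ _ ENNReal.ofReal_ne_top]
  have hI0 : ∫⁻ z : ℝ × ℝ, ‖T9h44.LG.Ext G z‖ₑ ^ 4 = ENNReal.ofReal (s₀ ^ 6) * I4 G' :=
    I4_sc0 hs0 hG hGne
  rw [hI0, mul_left_comm]
  refine mul_le_mul' le_rfl ?_
  refine (lintegral_mono fun c => hsum c).trans ?_
  rw [lintegral_const_mul' _ _ (ENNReal.pow_ne_top (ENNReal.natCast_ne_top _)),
    lintegral_finsetSum _ (fun p _ => hmeas p)]
  refine (mul_le_mul' le_rfl (Finset.sum_le_sum hpiece)).trans ?_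
  rw [Finset.sum_const, nsmul_eq_mul]
  have hDr : D ≤ ENNReal.ofReal (D.toReal + 1) := by
    calc D = ENNReal.ofReal D.toReal := (ENNReal.ofReal_toReal hDt.ne).symm
      _ ≤ _ := ENNReal.ofReal_le_ofReal (by linarith)
  have hcE : ((PP n J).card : ℝ≥0∞) ≤ ENNReal.ofReal (5 * (3 * n + 1) * A) := by
    rw [← ENNReal.ofReal_natCast]
    exact ENNReal.ofReal_le_ofReal hcard
  calc ((PP n J).card : ℝ≥0∞) ^ 3 * (((PP n J).card : ℝ≥0∞) *
        (ENNReal.ofReal (K * (4 ^ ε * (1 + s₀) ^ ε)) * (D * I4 G'))) =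
      ((PP n J).card : ℝ≥0∞) ^ 4 * (ENNReal.ofReal (K * (4 ^ ε * (1 + s₀) ^ ε)) * (D * I4 G')) := by
        ring
    _ ≤ ENNReal.ofReal (5 * (3 * n + 1) * A) ^ 4 * (ENNReal.ofReal (K * (4 ^ ε * (1 + s₀) ^ ε)) *
        (ENNReal.ofReal (D.toReal + 1) * I4 G')) := by gcongr
    _ = _ := by
      rw [← ENNReal.ofReal_pow (by positivity), ← mul_assoc, ← mul_assoc,
        ← ENNReal.ofReal_mul (by positivity), ← ENNReal.ofReal_mul (by positivity)]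
      congr 2
      rw [show (A : ℝ) ^ (4 : ℝ) = A ^ 4 by
        rw [show (4 : ℝ) = ((4 : ℕ) : ℝ) by norm_num, Real.rpow_natCast]]
      ring

end Pool.Agent.T9h31.LG
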