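import Pool.Agent.T9h31.LG.Planch

/-!
# Fourier inversion on the plane, decay of `Ext μ` for a test function `μ` (helper31)
-/

set_option autoImplicit false

namespace Pool.Agent.T9h31.LG

open MeasureTheory Real Pool.Agent.T9h44.LG
open scoped ENNReal ComplexConjugate FourierTransform ContDiff

/-- Fourier inversion on the plane -/
theorem inversion2 (f : ℝ × ℝ → ℂ) (hc : Continuous f) (h1 : Integrable f)
    (h2 : Integrable fun u : ℝ × ℝ => ∫ ζ : ℝ × ℝ, ee (u.1 * ζ.1 + u.2 * ζ.2) * f ζ)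
    (ζ₀ : ℝ × ℝ) :
    ∫ u : ℝ × ℝ, ee (-(u.1 * ζ₀.1 + u.2 * ζ₀.2)) *
      (∫ ζ : ℝ × ℝ, ee (u.1 * ζ.1 + u.2 * ζ.2) * f ζ) = f ζ₀ := by
  have mp1 : MeasurePreserving (MeasurableEquiv.finTwoArrow (α := ℝ)) :=
    volume_preserving_finTwoArrow ℝ
  have mp0 := EuclideanSpace.volume_preserving_symm_measurableEquiv_toLp (Fin 2)
  set T : EuclideanSpace ℝ (Fin 2) ≃ᵐ ℝ × ℝ :=
    (MeasurableEquiv.toLp 2 (Fin 2 → ℝ)).symm.trans MeasurableEquiv.finTwoArrow with hT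
  have mp : MeasurePreserving T := mp1.comp mp0
  have hTv : ∀ v, T v = (v 0, v 1) := fun v => rfl
  have hTc : Continuous T := by
    have : (T : EuclideanSpace ℝ (Fin 2) → ℝ × ℝ) = fun v => (v 0, v 1) := funext hTv
    rw [this]; fun_prop
  set F : ℝ × ℝ → ℂ := fun u => ∫ ζ : ℝ × ℝ, ee (u.1 * ζ.1 + u.2 * ζ.2) * f ζ with hF
  set g : EuclideanSpace ℝ (Fin 2) → ℂ := fun v => f (T v) with hg
  have hgc : Continuous g := hc.comp hTc
  have hgi : Integrable g := mp.integrable_comp_of_integrable h1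
  have hFT : ∀ ξ, 𝓕⁻ g ξ = F (T ξ) := by
    intro ξ
    rw [Real.fourierInv_eq, hF]
    simp only
    rw [← mp.integral_comp T.measurableEmbedding]
    refine integral_congr_ae (Filter.Eventually.of_forall fun v => ?_)
    simp only [hg]
    rw [Circle.smul_def, smul_eq_mul]
    congr 1
    unfold ee
    rw [Real.fourierChar_apply]
    congr 2
    rw [PiLp.inner_apply]
    simp only [RCLike.inner_apply, conj_trivial, Fin.sum_univ_two, hTv]
  have hFi : Integrable (fun ξ => F (T ξ)) := mp.integrable_comp_of_integrable h2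
  have hgi' : Integrable (𝓕 g) := by
    have e1 : 𝓕 g = fun ξ => F (T (-ξ)) := by
      ext ξ
      rw [← hFT, Real.fourierInv_eq_fourier_neg, neg_neg]
    rw [e1]
    exact hFi.comp_neg
  have h3 := hgc.fourier_fourierInv_eq hgi hgi'
  obtain ⟨v, hv⟩ := T.surjective ζ₀
  have h4 := congrFun h3 v
  rw [Real.fourier_eq] at h4
  have h5 : g v = f ζ₀ := by rw [hg]; simp only [hv]
  rw [h5] at h4
  rw [← h4, ← mp.integral_comp T.measurableEmbedding]
  refine integral_congr_ae (Filter.Eventually.of_forall fun w => ?_)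
  simp only
  rw [Circle.smul_def, smul_eq_mul, hFT]
  congr 1
  unfold ee
  rw [Real.fourierChar_apply]
  congr 2
  rw [PiLp.inner_apply]
  simp only [RCLike.inner_apply, conj_trivial, Fin.sum_univ_two, hTv, ← hv]
  congr 3
  ring

/-- test functions -/
def Test (μ : ℝ × ℝ → ℂ) : Prop := ContDiff ℝ (⊤ : ℕ∞) μ ∧ HasCompactSupport μ

/-- `∂_w` -/
noncomputable def dw (μ : ℝ × ℝ → ℂ) (ζ : ℝ × ℝ) : ℂ := fderiv ℝ μ ζ (1, 0)

/-- `∂_ξ` -/
noncomputable def dx (μ : ℝ × ℝ → ℂ) (ζ : ℝ × ℝ) : ℂ := fderiv ℝ μ ζ (0, 1)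

lemma test_dw {μ : ℝ × ℝ → ℂ} (h : Test μ) : Test (dw μ) :=
  ⟨(h.1.fderiv_right (m := ((⊤ : ℕ∞) : WithTop ℕ∞)) (by simp)).clm_apply contDiff_const,
    h.2.fderiv_apply ℝ (1, 0)⟩

lemma test_dx {μ : ℝ × ℝ → ℂ} (h : Test μ) : Test (dx μ) :=
  ⟨(h.1.fderiv_right (m := ((⊤ : ℕ∞) : WithTop ℕ∞)) (by simp)).clm_apply contDiff_const,
    h.2.fderiv_apply ℝ (0, 1)⟩

lemma Test.cont {μ : ℝ × ℝ → ℂ} (h : Test μ) : Continuous μ := h.1.continuous

lemma Test.diff {μ : ℝ × ℝ → ℂ} (h : Test μ) : Differentiable ℝ μ := h.1.differentiable (by simp)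

lemma Test.integrable {μ : ℝ × ℝ → ℂ} (h : Test μ) : Integrable μ :=
  h.cont.integrable_of_hasCompactSupport h.2

lemma Test.nice {μ : ℝ × ℝ → ℂ} (h : Test μ) : Nice μ := by
  refine ⟨h.cont.measurable, ?_, ?_⟩
  · obtain ⟨B, hB⟩ := h.2.exists_bound_of_continuous h.cont
    exact ⟨B, hB⟩
  · obtain ⟨r, hr⟩ := h.2.isCompact.isBounded.exists_norm_le
    refine ⟨r, fun ζ hζ => ?_⟩
    have h1 := hr ζ (subset_tsupport _ hζ)
    have h2 : ‖ζ.1‖ ≤ ‖ζ‖ := norm_fst_le ζ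
    have h3 : ‖ζ.2‖ ≤ ‖ζ‖ := norm_snd_le ζ
    exact ⟨h2.trans h1, h3.trans h1⟩

lemma Test.iter {μ : ℝ × ℝ → ℂ} (h : Test μ) (a b : ℕ) : Test (dw^[a] (dx^[b] μ)) := by
  have h1 : Test (dx^[b] μ) := by
    induction b with
    | zero => exact h
    | succ b ih => rw [Function.iterate_succ_apply']; exact test_dx ih
  induction a with
  | zero => exact h1
  | succ a ih => rw [Function.iterate_succ_apply']; exact test_dw ih

lemma Test.iterx {μ : ℝ × ℝ → ℂ} (h : Test μ) (b : ℕ) : Test (dx^[b] μ) := h.iter 0 b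

lemma iter_dx {μ : ℝ × ℝ → ℂ} (h : Test μ) (b : ℕ) (w : ℝ) :
    iteratedDeriv b (fun ξ : ℝ => μ (w, ξ)) = fun ξ => (dx^[b] μ) (w, ξ) := by
  induction b with
  | zero => ext ξ; simp
  | succ b ih =>
    rw [iteratedDeriv_succ, ih]
    ext ξ
    rw [Function.iterate_succ_apply']
    have h1 := (h.iter 0 b).diff (w, ξ)
    simp only [Function.iterate_zero, id_eq] at h1
    have h2 : HasDerivAt (fun ξ : ℝ => ((w, ξ) : ℝ × ℝ)) ((0, 1) : ℝ × ℝ) ξ :=
      (hasDerivAt_const ξ w).prodMk (hasDerivAt_id ξ)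
    exact (h1.hasFDerivAt.comp_hasDerivAt ξ h2).deriv

lemma iter_dw {μ : ℝ × ℝ → ℂ} (h : Test μ) (a : ℕ) (ξ : ℝ) :
    iteratedDeriv a (fun w : ℝ => μ (w, ξ)) = fun w => (dw^[a] μ) (w, ξ) := by
  induction a with
  | zero => ext w; simp
  | succ a ih =>
    rw [iteratedDeriv_succ, ih]
    ext w
    rw [Function.iterate_succ_apply']
    have h1 := (h.iter a 0).diff (w, ξ)
    simp only [Function.iterate_zero, id_eq] at h1
    have h2 : HasDerivAt (fun w : ℝ => ((w, ξ) : ℝ × ℝ)) ((1, 0) : ℝ × ℝ) w :=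
      (hasDerivAt_id w).prodMk (hasDerivAt_const w ξ)
    exact (h1.hasFDerivAt.comp_hasDerivAt w h2).deriv

lemma iter_eq {μ : ℝ × ℝ → ℂ} (h : Test μ) (a b : ℕ) (ζ : ℝ × ℝ) :
    iteratedDeriv a (fun w : ℝ => iteratedDeriv b (fun ξ : ℝ => μ (w, ξ)) ζ.2) ζ.1 =
      (dw^[a] (dx^[b] μ)) ζ := by
  have h1 : (fun w : ℝ => iteratedDeriv b (fun ξ : ℝ => μ (w, ξ)) ζ.2) =
      fun w => (dx^[b] μ) (w, ζ.2) := by
    ext w
    rw [iter_dx h]
  rw [h1, iter_dw (h.iterx b)]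

lemma hasLineDeriv_ee (u : ℝ × ℝ) (ζ v : ℝ × ℝ) :
    HasLineDerivAt ℝ (fun ζ : ℝ × ℝ => ee (u.1 * ζ.1 + u.2 * ζ.2))
      (2 * π * Complex.I * (u.1 * v.1 + u.2 * v.2) * ee (u.1 * ζ.1 + u.2 * ζ.2)) ζ v := by
  unfold HasLineDerivAt
  have h1 : HasDerivAt (fun t : ℝ => (((2 * π * (u.1 * (ζ + t • v).1 + u.2 * (ζ + t • v).2) : ℝ)) : ℂ) *
      Complex.I) (((2 * π * (u.1 * v.1 + u.2 * v.2) : ℝ) : ℂ) * Complex.I) 0 := by
    refine HasDerivAt.mul_const ?_ _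
    refine HasDerivAt.ofReal_comp ?_
    refine HasDerivAt.const_mul _ ?_
    have h2 : HasDerivAt (fun t : ℝ => u.1 * ζ.1 + u.2 * ζ.2 + t * (u.1 * v.1 + u.2 * v.2))
        (u.1 * v.1 + u.2 * v.2) 0 := by
      simpa using ((hasDerivAt_id (0 : ℝ)).mul_const (u.1 * v.1 + u.2 * v.2)).const_add
        (u.1 * ζ.1 + u.2 * ζ.2)
    refine h2.congr_of_eventuallyEq (Filter.Eventually.of_forall fun t => ?_)
    simp only [Prod.fst_add, Prod.snd_add, Prod.smul_fst, Prod.smul_snd, smul_eq_mul]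
    ring
  have h3 := h1.cexp
  unfold ee
  refine h3.congr_deriv ?_
  simp only [zero_smul, add_zero]
  push_cast
  ring

/-- integration by parts -/
lemma Ext_line {μ : ℝ × ℝ → ℂ} (h : Test μ) (v u : ℝ × ℝ) :
    ∫ ζ : ℝ × ℝ, ee (u.1 * ζ.1 + u.2 * ζ.2) * fderiv ℝ μ ζ v =
      -(2 * π * Complex.I * (u.1 * v.1 + u.2 * v.2)) * T9h44.LG.Ext μ u := by
  have hcs : HasCompactSupport fun ζ => fderiv ℝ μ ζ v := h.2.fderiv_apply ℝ v
  have hcd : Continuous fun ζ => fderiv ℝ μ ζ v :=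
    (h.1.continuous_fderiv (by simp)).clm_apply continuous_const
  have hce : Continuous fun ζ : ℝ × ℝ => ee (u.1 * ζ.1 + u.2 * ζ.2) :=
    continuous_ee.comp (by fun_prop)
  have hb := integral_bilinear_hasLineDerivAt_right_eq_neg_left_of_integrable
    (μ := (volume : Measure (ℝ × ℝ))) (B := ContinuousLinearMap.mul ℝ ℂ)
    (f := fun ζ : ℝ × ℝ => ee (u.1 * ζ.1 + u.2 * ζ.2))
    (f' := fun ζ => 2 * π * Complex.I * (u.1 * v.1 + u.2 * v.2) * ee (u.1 * ζ.1 + u.2 * ζ.2))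
    (g := μ) (g' := fun ζ => fderiv ℝ μ ζ v) (v := v) ?_ ?_ ?_
    (fun ζ _ => hasLineDeriv_ee u ζ v)
    (fun ζ _ => (h.diff ζ).hasFDerivAt.hasLineDerivAt v)
  · simp only [ContinuousLinearMap.mul_apply'] at hb
    rw [hb]
    unfold T9h44.LG.Ext
    rw [neg_mul, ← integral_const_mul]
    congr 1
    refine integral_congr_ae (Filter.Eventually.of_forall fun ζ => ?_)
    simp only
    ring
  · simp only [ContinuousLinearMap.mul_apply']
    refine (((continuous_const.mul hce).mul h.cont)).integrable_of_hasCompactSupport ?_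
    exact h.2.mul_left
  · simp only [ContinuousLinearMap.mul_apply']
    exact (hce.mul hcd).integrable_of_hasCompactSupport hcs.mul_left
  · simp only [ContinuousLinearMap.mul_apply']
    exact (hce.mul h.cont).integrable_of_hasCompactSupport h.2.mul_left

lemma Ext_dw {μ : ℝ × ℝ → ℂ} (h : Test μ) (u : ℝ × ℝ) :
    T9h44.LG.Ext (dw μ) u = -(2 * π * Complex.I * u.1) * T9h44.LG.Ext μ u := by
  have := Ext_line h (1, 0) u
  simp only [mul_one, mul_zero, add_zero, Complex.ofReal_one, Complex.ofReal_zero] at this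
  exact this

lemma Ext_dx {μ : ℝ × ℝ → ℂ} (h : Test μ) (u : ℝ × ℝ) :
    T9h44.LG.Ext (dx μ) u = -(2 * π * Complex.I * u.2) * T9h44.LG.Ext μ u := by
  have := Ext_line h (0, 1) u
  simp only [mul_one, mul_zero, zero_add, Complex.ofReal_one, Complex.ofReal_zero] at this
  exact this

lemma Ext_iter {μ : ℝ × ℝ → ℂ} (h : Test μ) (a b : ℕ) (u : ℝ × ℝ) :
    T9h44.LG.Ext (dw^[a] (dx^[b] μ)) u =
      (-(2 * π * Complex.I * u.1)) ^ a * (-(2 * π * Complex.I * u.2)) ^ b * T9h44.LG.Ext μ u := by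
  have h1 : T9h44.LG.Ext (dx^[b] μ) u = (-(2 * π * Complex.I * u.2)) ^ b * T9h44.LG.Ext μ u := by
    induction b with
    | zero => simp
    | succ b ih =>
      rw [Function.iterate_succ_apply', Ext_dx (h.iterx b), ih, pow_succ]
      ring
  induction a with
  | zero => simp [h1]
  | succ a ih =>
    rw [Function.iterate_succ_apply', Ext_dw (h.iter a b), ih, pow_succ]
    ring

/-- the weight `((1 + u²)(1 + v²))⁻¹` -/
noncomputable def ww (u : ℝ × ℝ) : ℝ := (1 + u.1 ^ 2)⁻¹ * (1 + u.2 ^ 2)⁻¹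

lemma ww_pos (u : ℝ × ℝ) : 0 < ww u := by unfold ww; positivity

lemma integrable_ww : Integrable ww := by
  have h := integrable_inv_one_add_sq.mul_prod integrable_inv_one_add_sq
  exact h

lemma Ext_decay {μ : ℝ × ℝ → ℂ} (h : Test μ) : ∃ C : ℝ, ∀ u, ‖T9h44.LG.Ext μ u‖ ≤ C * ww u := by
  have hb : ∀ a b : ℕ, ∃ C : ℝ, 0 ≤ C ∧ ∀ u : ℝ × ℝ, |u.1| ^ a * |u.2| ^ b * ‖T9h44.LG.Ext μ u‖ ≤ C := by
    intro a b
    refine ⟨∫ ζ, ‖(dw^[a] (dx^[b] μ)) ζ‖, integral_nonneg fun _ => norm_nonneg _, fun u => ?_⟩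
    have h1 := norm_Ext_le (G := dw^[a] (dx^[b] μ)) u
    rw [Ext_iter h] at h1
    refine le_trans ?_ h1
    rw [norm_mul, norm_mul, norm_pow, norm_pow, norm_neg, norm_neg, norm_mul, norm_mul, norm_mul,
      norm_mul, norm_mul, norm_mul, Complex.norm_I, Complex.norm_real, Complex.norm_real,
      Complex.norm_real]
    simp only [Complex.norm_ofNat, mul_one, Real.norm_eq_abs]
    rw [abs_of_pos pi_pos, mul_pow (2 * π), mul_pow (2 * π)]
    have hp : (1 : ℝ) ≤ 2 * π := by linarith [Real.pi_gt_three]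
    have h2 : (1 : ℝ) ≤ (2 * π) ^ a := one_le_pow₀ hp
    have h3 : (1 : ℝ) ≤ (2 * π) ^ b := one_le_pow₀ hp
    refine mul_le_mul_of_nonneg_right ?_ (norm_nonneg _)
    exact mul_le_mul (le_mul_of_one_le_left (by positivity) h2)
      (le_mul_of_one_le_left (by positivity) h3) (by positivity) (by positivity)
  obtain ⟨C0, h00, h0⟩ := hb 0 0
  obtain ⟨C1, h10, h1⟩ := hb 2 0
  obtain ⟨C2, h20, h2⟩ := hb 0 2
  obtain ⟨C3, h30, h3⟩ := hb 2 2
  refine ⟨C0 + C1 + C2 + C3, fun u => ?_⟩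
  have h4 := h0 u
  have h5 := h1 u
  have h6 := h2 u
  have h7 := h3 u
  simp only [pow_zero, one_mul, mul_one, sq_abs] at h4 h5 h6 h7
  have h8 : 0 < (1 + u.1 ^ 2) * (1 + u.2 ^ 2) := by positivity
  have h9 : ww u = ((1 + u.1 ^ 2) * (1 + u.2 ^ 2))⁻¹ := by unfold ww; rw [mul_inv]
  rw [h9, ← div_eq_mul_inv, le_div_iff₀ h8]
  calc ‖T9h44.LG.Ext μ u‖ * ((1 + u.1 ^ 2) * (1 + u.2 ^ 2)) =
      ‖T9h44.LG.Ext μ u‖ + u.1 ^ 2 * ‖T9h44.LG.Ext μ u‖ + u.2 ^ 2 * ‖T9h44.LG.Ext μ u‖ +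
        u.1 ^ 2 * u.2 ^ 2 * ‖T9h44.LG.Ext μ u‖ := by ring
    _ ≤ _ := by linarith

lemma Ext_integrable {μ : ℝ × ℝ → ℂ} (h : Test μ) : Integrable (T9h44.LG.Ext μ) := by
  obtain ⟨C, hC⟩ := Ext_decay h
  exact (integrable_ww.const_mul C).mono' (continuous_Ext h.nice).aestronglyMeasurable
    (Filter.Eventually.of_forall hC)

/-- inversion for a test function -/
lemma inv_test {μ : ℝ × ℝ → ℂ} (h : Test μ) (ζ : ℝ × ℝ) :
    ∫ u : ℝ × ℝ, ee (-(u.1 * ζ.1 + u.2 * ζ.2)) * T9h44.LG.Ext μ u = μ ζ :=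
  inversion2 μ h.cont h.integrable (Ext_integrable h) ζ

/-- `Ext (μ G) = (Ext μ) * (Ext G)` -/
theorem Ext_mul {μ : ℝ × ℝ → ℂ} (h : Test μ) {G : ℝ × ℝ → ℂ} (hG : Nice G) (y : ℝ × ℝ) :
    T9h44.LG.Ext (fun ζ => μ ζ * G ζ) y =
      ∫ y' : ℝ × ℝ, T9h44.LG.Ext μ (y - y') * T9h44.LG.Ext G y' := by
  have hK := Ext_integrable h
  have hGi := Nice.integrable hG
  -- Fubini
  have h1 : Integrable (fun p : (ℝ × ℝ) × (ℝ × ℝ) =>
      T9h44.LG.Ext μ (y - p.1) * (ee (p.1.1 * p.2.1 + p.1.2 * p.2.2) * G p.2)) := by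
    have hK' : Integrable (fun y' => T9h44.LG.Ext μ (y - y')) := hK.comp_sub_left y
    have h2 := hK'.mul_prod hGi
    refine (h2.norm).mono' ?_ ?_
    · refine AEStronglyMeasurable.mul ?_ (AEStronglyMeasurable.mul ?_ ?_)
      · exact ((continuous_Ext h.nice).comp (by fun_prop)).aestronglyMeasurable
      · exact (continuous_ee.comp (by fun_prop)).aestronglyMeasurable
      · exact (hG.1.comp measurable_snd).aestronglyMeasurable
    · refine Filter.Eventually.of_forall fun p => ?_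
      simp only [norm_mul, norm_ee, one_mul]
      exact le_rfl
  have h3 : (∫ y' : ℝ × ℝ, T9h44.LG.Ext μ (y - y') * T9h44.LG.Ext G y') =
      ∫ y' : ℝ × ℝ, ∫ ζ : ℝ × ℝ, T9h44.LG.Ext μ (y - y') *
        (ee (y'.1 * ζ.1 + y'.2 * ζ.2) * G ζ) := by
    refine integral_congr_ae (Filter.Eventually.of_forall fun y' => ?_)
    simp only
    rw [integral_const_mul]
    rfl
  rw [h3, integral_integral_swap h1]
  unfold T9h44.LG.Ext
  refine integral_congr_ae (Filter.Eventually.of_forall fun ζ => ?_)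
  simp only
  have h4 := inv_test h ζ
  have h5 : (∫ y' : ℝ × ℝ, T9h44.LG.Ext μ (y - y') * (ee (y'.1 * ζ.1 + y'.2 * ζ.2) * G ζ)) =
      ee (y.1 * ζ.1 + y.2 * ζ.2) * G ζ * ∫ u : ℝ × ℝ, ee (-(u.1 * ζ.1 + u.2 * ζ.2)) *
        T9h44.LG.Ext μ u := by
    rw [← integral_const_mul]
    rw [← integral_sub_left_eq_self (fun u : ℝ × ℝ => ee (y.1 * ζ.1 + y.2 * ζ.2) * G ζ *
      (ee (-(u.1 * ζ.1 + u.2 * ζ.2)) * T9h44.LG.Ext μ u)) volume y]
    refine integral_congr_ae (Filter.Eventually.of_forall fun y' => ?_)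
    simp only [Prod.fst_sub, Prod.snd_sub]
    have h6 : ee (y'.1 * ζ.1 + y'.2 * ζ.2) = ee (y.1 * ζ.1 + y.2 * ζ.2) *
        ee (-((y.1 - y'.1) * ζ.1 + (y.2 - y'.2) * ζ.2)) := by
      rw [← ee_add]
      congr 1
      ring
    rw [h6]
    ring
  have h7 := h5
  unfold T9h44.LG.Ext at h7
  rw [h7]
  have h8 := h4
  unfold T9h44.LG.Ext at h8
  rw [h8]
  ring

end Pool.Agent.T9h31.LG
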