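import Pool.Agent.T9h31.LG.Bs

/-!
# Linear changes of variables on the plane, the frame change (helper31)
-/

set_option autoImplicit false

namespace Pool.Agent.T9h31.LG

open MeasureTheory Real Pool.Agent.T9h44.LG
open scoped ENNReal ComplexConjugate ContDiff Topology

/-- a linear map of the plane -/
noncomputable def lin (a b c d : ℝ) (z : ℝ × ℝ) : ℝ × ℝ := (a * z.1 + b * z.2, c * z.1 + d * z.2)

lemma map_lin {a b c d : ℝ} (h : a * d - b * c ≠ 0) :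
    Measure.map (lin a b c d) (volume : Measure (ℝ × ℝ)) =
      ENNReal.ofReal |(a * d - b * c)⁻¹| • (volume : Measure (ℝ × ℝ)) := by
  set L : ℝ × ℝ →ₗ[ℝ] ℝ × ℝ := Matrix.toLin (Module.Basis.finTwoProd ℝ) (Module.Basis.finTwoProd ℝ)
    !![a, b; c, d] with hL
  have hLf : (L : ℝ × ℝ → ℝ × ℝ) = lin a b c d := by
    ext z <;> simp [hL, Matrix.toLin_finTwoProd, lin]
  have hdet : LinearMap.det L = a * d - b * c := by
    rw [hL, LinearMap.det_toLin, Matrix.det_fin_two_of]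
  have h1 := Measure.map_linearMap_addHaar_eq_smul_addHaar (volume : Measure (ℝ × ℝ))
    (f := L) (by rw [hdet]; exact h)
  rw [hdet, hLf] at h1
  exact h1

lemma continuous_lin (a b c d : ℝ) : Continuous (lin a b c d) := by unfold lin; fun_prop

lemma lint_lin {a b c d : ℝ} (h : a * d - b * c ≠ 0) {f : ℝ × ℝ → ℝ≥0∞} (hf : Measurable f) :
    ∫⁻ z, f (lin a b c d z) = ENNReal.ofReal |(a * d - b * c)⁻¹| * ∫⁻ z, f z := by
  rw [← lintegral_map hf (continuous_lin a b c d).measurable, map_lin h, lintegral_smul_measure,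
    smul_eq_mul]

lemma int_lin {a b c d : ℝ} (h : a * d - b * c ≠ 0) {f : ℝ × ℝ → ℂ} (hf : Measurable f) :
    ∫ z, f (lin a b c d z) = ((|(a * d - b * c)⁻¹| : ℝ) : ℂ) * ∫ z, f z := by
  rw [← integral_map (continuous_lin a b c d).measurable.aemeasurable hf.aestronglyMeasurable,
    map_lin h, integral_smul_measure, ENNReal.toReal_ofReal (abs_nonneg _), Complex.real_smul]

lemma fr_eq (α s : ℝ) (G : ℝ × ℝ → ℂ) (ζ : ℝ × ℝ) : fr α s G ζ = G (lin 1 0 α s ζ) := by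
  unfold fr lin
  congr 2
  · ring
  · ring

lemma Ext_fr {α s : ℝ} (hs : 0 < s) {G : ℝ × ℝ → ℂ} (hG : Measurable G) (z : ℝ × ℝ) :
    T9h44.LG.Ext G z = s * T9h44.LG.Ext (fr α s G) (lin 1 α 0 s z) := by
  have hd : (1 : ℝ) * s - 0 * α ≠ 0 := by simp [hs.ne']
  have h1 := int_lin hd (f := fun ζ => ee (z.1 * ζ.1 + z.2 * ζ.2) * G ζ)
    ((measurable_ee.comp (by fun_prop)).mul hG)
  have e1 : (1 : ℝ) * s - 0 * α = s := by ring
  rw [e1, abs_of_pos (inv_pos.2 hs)] at h1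
  have hs' : (s : ℂ) ≠ 0 := by exact_mod_cast hs.ne'
  have h2 : T9h44.LG.Ext (fr α s G) (lin 1 α 0 s z) =
      ∫ ζ, (fun ζ => ee (z.1 * ζ.1 + z.2 * ζ.2) * G ζ) (lin 1 0 α s ζ) := by
    unfold T9h44.LG.Ext
    refine integral_congr_ae (Filter.Eventually.of_forall fun ζ => ?_)
    simp only [fr_eq]
    congr 2
    unfold lin
    simp only
    ring
  rw [h2, h1]
  unfold T9h44.LG.Ext
  push_cast
  rw [← mul_assoc, mul_inv_cancel₀ hs', one_mul]

lemma nice_fr {α s : ℝ} (hs : 0 < s) {G : ℝ × ℝ → ℂ} (hG : Nice G) : Nice (fr α s G) := by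
  obtain ⟨hm, ⟨B, hB⟩, r, hr⟩ := hG
  have e : fr α s G = fun ζ => G (lin 1 0 α s ζ) := funext fun ζ => fr_eq α s G ζ
  rw [e]
  refine ⟨hm.comp (continuous_lin _ _ _ _).measurable, ⟨B, fun ζ => hB _⟩, r + (r + r * |α|) / s,
    fun ζ hζ => ?_⟩
  obtain ⟨h1, h2⟩ := hr _ hζ
  unfold lin at h1 h2
  simp only at h1 h2
  have e1 : 1 * ζ.1 + 0 * ζ.2 = ζ.1 := by ring
  rw [e1] at h1
  have hr0 : 0 ≤ r := (abs_nonneg _).trans h1
  have h3 : |s * ζ.2| ≤ r + r * |α| := by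
    calc |s * ζ.2| = |(α * ζ.1 + s * ζ.2) - α * ζ.1| := by congr 1; ring
      _ ≤ |α * ζ.1 + s * ζ.2| + |α * ζ.1| := abs_sub _ _
      _ ≤ r + r * |α| := by
        rw [abs_mul α]
        nlinarith [abs_nonneg α]
  rw [abs_mul, abs_of_pos hs] at h3
  have h4 : |ζ.2| ≤ (r + r * |α|) / s := by
    rw [le_div_iff₀ hs]
    linarith
  have h5 : 0 ≤ (r + r * |α|) / s := (abs_nonneg _).trans h4
  exact ⟨by linarith, by linarith⟩

lemma Av_fr {α s ρ : ℝ} (hs : 0 < s) {G : ℝ × ℝ → ℂ} (hG : Nice G) (z : ℝ × ℝ) :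
    Av α s ρ (T9h44.LG.sq G) z =
      ENNReal.ofReal (s ^ 2) * Av 0 1 ρ (T9h44.LG.sq (fr α s G)) (lin 1 α 0 s z) := by
  have hd : (1 : ℝ) * s - α * 0 ≠ 0 := by simp [hs.ne']
  have hm : Measurable fun y : ℝ × ℝ => ENNReal.ofReal (Wt 0 1 ρ (lin 1 α 0 s z - y)) *
      T9h44.LG.sq (fr α s G) y :=
    ((measurable_Wt 0 1 ρ).comp (measurable_const.sub measurable_id)).mul
      (measurable_sq (nice_fr hs hG))
  have h1 := lint_lin hd hm
  have e1 : (1 : ℝ) * s - α * 0 = s := by ring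
  rw [e1, abs_of_pos (inv_pos.2 hs)] at h1
  have h2 : Av α s ρ (T9h44.LG.sq G) z = ENNReal.ofReal (s ^ 3) * ∫⁻ y : ℝ × ℝ,
      ENNReal.ofReal (Wt 0 1 ρ (lin 1 α 0 s z - lin 1 α 0 s y)) *
      T9h44.LG.sq (fr α s G) (lin 1 α 0 s y) := by
    unfold Av
    rw [← lintegral_const_mul' _ _ ENNReal.ofReal_ne_top]
    refine lintegral_congr fun y => ?_
    have e2 : Wt α s ρ (z - y) = s * Wt 0 1 ρ (lin 1 α 0 s z - lin 1 α 0 s y) := by
      unfold Wt lin
      simp only [Prod.fst_sub, Prod.snd_sub]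
      have e3 : 1 * z.1 + α * z.2 - (1 * y.1 + α * y.2) +
          0 * (0 * z.1 + s * z.2 - (0 * y.1 + s * y.2)) = z.1 - y.1 + α * (z.2 - y.2) := by ring
      have e4 : 1 * (0 * z.1 + s * z.2 - (0 * y.1 + s * y.2)) = s * (z.2 - y.2) := by ring
      rw [e3, e4]
      ring
    have e5 : T9h44.LG.sq G y = ENNReal.ofReal (s ^ 2) *
        T9h44.LG.sq (fr α s G) (lin 1 α 0 s y) := by
      unfold T9h44.LG.sq
      rw [Ext_fr hs hG.1 (α := α) y, enorm_mul, mul_pow]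
      congr 1
      rw [enorm_sq_ofReal, Complex.norm_real, Real.norm_eq_abs, sq_abs]
    rw [e2, e5, ENNReal.ofReal_mul hs.le]
    rw [show s ^ 3 = s * s ^ 2 by ring, ENNReal.ofReal_mul hs.le]
    ring
  rw [h2, h1]
  unfold Av
  rw [← mul_assoc, ← ENNReal.ofReal_mul (by positivity)]
  congr 2
  field_simp

end Pool.Agent.T9h31.LG
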