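import Pool.Agent.T9h31.LG.Lin

/-!
# (LO) of `T9h44.LG.Spec` (helper31)
-/

set_option autoImplicit false

namespace Pool.Agent.T9h31.LG

open MeasureTheory Real Pool.Agent.T9h44.LG
open scoped ENNReal ComplexConjugate ContDiff Topology

lemma count_int (I : Finset ℤ) (x : ℝ) : (I.filter fun i : ℤ => |x - i| ≤ 1).card ≤ 3 := by
  have h1 : (I.filter fun i : ℤ => |x - i| ≤ 1) ⊆ Finset.Icc ⌈x - 1⌉ ⌊x + 1⌋ := by
    intro i hi
    rw [Finset.mem_filter] at hi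
    have h2 := abs_le.1 hi.2
    rw [Finset.mem_Icc, Int.ceil_le, Int.le_floor]
    constructor <;> linarith [h2.1, h2.2]
  refine (Finset.card_le_card h1).trans ?_
  rw [Int.card_Icc]
  have h3 : ⌊x + 1⌋ ≤ ⌈x - 1⌉ + 2 := by
    have h4 : (⌊x + 1⌋ : ℝ) ≤ x + 1 := Int.floor_le _
    have h5 : x - 1 ≤ ⌈x - 1⌉ := Int.le_ceil _
    have h6 : (⌊x + 1⌋ : ℝ) ≤ ((⌈x - 1⌉ + 2 : ℤ) : ℝ) := by push_cast; linarith
    exact_mod_cast h6
  omega

lemma wid_zero {x : ℝ} (h : 8 < |x|) : wid x = 0 := by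
  unfold wid
  rcases lt_abs.1 h with h | h
  · rw [smoothTransition.zero_of_nonpos (by linarith), zero_mul]
  · rw [smoothTransition.zero_of_nonpos (x := 8 + x) (by linarith), mul_zero]

lemma wid_one {x : ℝ} (h : |x| ≤ 7) : wid x = 1 := by
  unfold wid
  rw [abs_le] at h
  rw [smoothTransition.one_of_one_le (by linarith), smoothTransition.one_of_one_le (by linarith),
    one_mul]

lemma continuous_wid : Continuous wid := by
  unfold wid
  refine Continuous.mul ?_ ?_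
  · exact smoothTransition.continuous.comp (by fun_prop)
  · exact smoothTransition.continuous.comp (by fun_prop)

lemma measurable_al : Measurable al := measurable_snd.div measurable_fst

lemma norm_wid_le (x : ℝ) : ‖((wid x : ℝ) : ℂ)‖ ≤ 1 := by
  rw [Complex.norm_real, Real.norm_eq_abs]
  unfold wid
  rw [abs_mul, abs_of_nonneg (smoothTransition.nonneg _), abs_of_nonneg (smoothTransition.nonneg _)]
  exact mul_le_one₀ (smoothTransition.le_one _) (smoothTransition.nonneg _)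
    (smoothTransition.le_one _)

lemma norm_chi_le (x : ℝ) : ‖((chi x : ℝ) : ℂ)‖ ≤ 1 := by
  rw [Complex.norm_real, Real.norm_eq_abs]
  unfold chi
  have h1 := smoothTransition.nonneg (x + 1)
  have h2 := smoothTransition.nonneg x
  have h3 := smoothTransition.le_one (x + 1)
  have h4 := smoothTransition.le_one x
  rw [abs_le]
  constructor <;> linarith

lemma continuous_chi : Continuous chi := by
  unfold chi
  exact (smoothTransition.continuous.comp (by fun_prop)).sub smoothTransition.continuous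

lemma nice_mul_bdd {G : ℝ × ℝ → ℂ} (hG : Nice G) {f : ℝ × ℝ → ℂ} (hf : Measurable f)
    (hb : ∀ ζ, ‖f ζ‖ ≤ 1) : Nice (fun ζ => f ζ * G ζ) := by
  obtain ⟨hm, ⟨B, hB⟩, r, hr⟩ := hG
  refine ⟨hf.mul hm, ⟨B, fun ζ => ?_⟩, r, fun ζ hζ => hr ζ (right_ne_zero_of_mul hζ)⟩
  rw [norm_mul]
  exact (mul_le_of_le_one_left (norm_nonneg _) (hb ζ)).trans (hB ζ)

lemma nice_Gw {G : ℝ × ℝ → ℂ} (hG : Nice G) (k : ℕ) (j : ℤ) : Nice (Gw k j G) := by
  refine nice_mul_bdd hG ?_ fun ζ => norm_wid_le _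
  exact Complex.measurable_ofReal.comp (continuous_wid.measurable.comp
    ((measurable_al.const_mul _).sub_const _))

lemma nice_Gp {G : ℝ × ℝ → ℂ} (hG : Nice G) (m : ℕ) (i : ℤ) : Nice (Gp m i G) := by
  refine nice_mul_bdd hG ?_ fun ζ => norm_chi_le _
  exact Complex.measurable_ofReal.comp (continuous_chi.measurable.comp
    ((measurable_al.const_mul _).sub_const _))

/-- the pieces in the frame -/
lemma Gp_fr {m k : ℕ} (hk : k ≤ m) (j i : ℤ) {G : ℝ × ℝ → ℂ}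
    (hG : ∀ ζ, G ζ ≠ 0 → 1 ≤ ζ.1 ∧ ζ.1 ≤ 2)
    (hi : j * 2 ^ (m - k) - 3 ≤ i ∧ i ≤ (j + 1) * 2 ^ (m - k) + 3) :
    fr (j / 2 ^ k) (1 / 2 ^ k) (Gp m i G) = fun ζ =>
      (chc ((2 : ℝ) ^ (m - k) * qa ζ - ((i : ℝ) - j * 2 ^ (m - k))) * beta0 ζ) *
        fr (j / 2 ^ k) (1 / 2 ^ k) (Gw k j G) ζ := by
  ext ζ
  have hp : (0 : ℝ) < 2 ^ k := by positivity
  have hl : (0 : ℝ) < 2 ^ (m - k) := by positivity
  have hl1 : (1 : ℝ) ≤ 2 ^ (m - k) := one_le_pow₀ (by norm_num)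
  have hmk : (2 : ℝ) ^ m = 2 ^ (m - k) * 2 ^ k := by rw [← pow_add]; congr 1; omega
  unfold fr Gp Gw
  set ζ₀ : ℝ × ℝ := (ζ.1, ζ.1 * (j / 2 ^ k) + 1 / 2 ^ k * ζ.2) with hζ₀
  by_cases h0 : G ζ₀ = 0
  · rw [h0, mul_zero, mul_zero, mul_zero]
  · obtain ⟨h1, h2⟩ := hG ζ₀ h0
    simp only [hζ₀] at h1 h2
    have hw : ζ.1 ≠ 0 := by linarith
    have hal : al ζ₀ = j / 2 ^ k + 1 / 2 ^ k * (ζ.2 / ζ.1) := by
      unfold al
      simp only [hζ₀]
      field_simp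
    have e1 : 2 ^ k * al ζ₀ - j = ζ.2 / ζ.1 := by
      rw [hal]
      field_simp
      ring
    have e2 : 2 ^ m * al ζ₀ - i = 2 ^ (m - k) * (ζ.2 / ζ.1) - ((i : ℝ) - j * 2 ^ (m - k)) := by
      have : (2 : ℝ) ^ m * al ζ₀ = 2 ^ (m - k) * (2 ^ k * al ζ₀) := by rw [hmk]; ring
      rw [this, show 2 ^ k * al ζ₀ = j + ζ.2 / ζ.1 by linarith]
      ring
    have hqa : qa ζ = ζ.2 / ζ.1 := by
      unfold qa
      rw [theta_eq (by linarith)]
      rfl
    rw [e1, e2, hqa]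
    by_cases hc : chi (2 ^ (m - k) * (ζ.2 / ζ.1) - ((i : ℝ) - j * 2 ^ (m - k))) = 0
    · unfold chc
      rw [hc]
      simp
    · have h3 : |2 ^ (m - k) * (ζ.2 / ζ.1) - ((i : ℝ) - j * 2 ^ (m - k))| < 1 := by
        by_contra h
        exact hc (chi_zero (not_lt.1 h))
      rw [abs_lt] at h3
      have hi1 : (j : ℝ) * 2 ^ (m - k) - 3 ≤ i := by exact_mod_cast hi.1
      have hi2 : (i : ℝ) ≤ (j + 1) * 2 ^ (m - k) + 3 := by exact_mod_cast hi.2
      have h4 : ζ.2 / ζ.1 ≤ 5 := by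
        by_contra h
        rw [not_le] at h
        nlinarith [h3.2]
      have h5 : -4 ≤ ζ.2 / ζ.1 := by
        by_contra h
        rw [not_le] at h
        nlinarith [h3.1]
      have h6 : |ζ.2 / ζ.1| ≤ 7 := by
        rw [abs_le]; constructor <;> linarith
      have h7 : |ζ.2| ≤ 17 := by
        have h8 : ζ.2 = ζ.2 / ζ.1 * ζ.1 := by field_simp
        rw [h8, abs_mul, abs_of_pos (by linarith : (0 : ℝ) < ζ.1)]
        nlinarith [abs_nonneg (ζ.2 / ζ.1)]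
      rw [wid_one h6, beta0_eq h1 h2 h7]
      unfold chc
      simp

theorem s_lo : S_lo := by
  obtain ⟨C, hC, hwl⟩ := s_wl
  have hfam : ∀ a b : ℕ, ∃ B : ℝ, 0 ≤ B ∧ ∀ l c ζ,
      ‖(dw^[a] (dx^[b] (fun ζ => chc (l * qa ζ - c) * beta0 ζ))) ζ‖ ≤ B * (1 + |l|) ^ (a + b) := by
    intro a b
    exact fam_bound chc_bdd (fam_iter contDiff_chc contDiff_qa (fam0 chc qa test_beta0) a b)
  have hsup : ∀ (a b : ℕ) (l c : ℝ) (ζ : ℝ × ℝ),
      (dw^[a] (dx^[b] (fun ζ => chc (l * qa ζ - c) * beta0 ζ))) ζ ≠ 0 → |l * qa ζ - c| ≤ 1 := by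
    intro a b l c ζ h
    exact fam_supp chc_supp (fam_iter contDiff_chc contDiff_qa (fam0 chc qa test_beta0) a b)
      l c ζ h
  choose B hB0 hB using hfam
  set A₀ : ℝ := ∑ a ∈ Finset.range 3, ∑ b ∈ Finset.range 3, B a b with hA
  have hA0 : 0 ≤ A₀ := Finset.sum_nonneg fun a _ => Finset.sum_nonneg fun b _ => hB0 a b
  have hBA : ∀ a ≤ 2, ∀ b ≤ 2, B a b ≤ A₀ := by
    intro a ha b hb
    calc B a b ≤ ∑ b ∈ Finset.range 3, B a b :=
          Finset.single_le_sum (f := fun b => B a b) (fun b _ => hB0 a b)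
            (Finset.mem_range.2 (by omega))
      _ ≤ A₀ := Finset.single_le_sum (f := fun a => ∑ b ∈ Finset.range 3, B a b)
            (fun a _ => Finset.sum_nonneg fun b _ => hB0 a b) (Finset.mem_range.2 (by omega))
  set A : ℝ := 2 * (A₀ * 512 ^ 4) with hAdef
  have hA' : 0 ≤ A := by positivity
  refine ⟨C * (A ^ 2 + 1), by positivity, ?_⟩
  intro m k j G hk hG hGs I hI z
  have hs : (0 : ℝ) < 1 / 2 ^ k := by positivity
  set r : ℝ := (4 : ℝ) ^ ((m : ℤ) - k - 4) with hr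
  have hr0 : 0 < r := by positivity
  set l : ℝ := 2 ^ (m - k) with hl
  have hl1 : (1 : ℝ) ≤ l := one_le_pow₀ (by norm_num)
  have hrl : 256 * r = l ^ 2 := by
    rw [hr, hl, zpow_sub₀ (by norm_num), zpow_sub₀ (by norm_num), zpow_natCast, zpow_natCast,
      ← pow_mul, mul_comm (m - k) 2, pow_mul]
    have : (4 : ℝ) ^ m = 4 ^ (m - k) * 4 ^ k := by rw [← pow_add]; congr 1; omega
    rw [this]
    norm_num
    field_simp
  set α : ℝ := (j : ℝ) / 2 ^ k with hα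
  set s : ℝ := 1 / 2 ^ k with hsdef
  set G' : ℝ × ℝ → ℂ := fr α s (Gw k j G) with hG'
  have hG'n : Nice G' := nice_fr hs (nice_Gw hG k j)
  set μ : {i // i ∈ I} → ℝ × ℝ → ℂ := fun i ζ =>
    chc (l * qa ζ - (((i : ℤ) : ℝ) - j * l)) * beta0 ζ with hμ
  have hμt : ∀ i, Test (μ i) := by
    intro i
    refine test_mul ?_ test_beta0
    refine contDiff_chc.comp ?_
    exact (contDiff_const.mul contDiff_qa).sub contDiff_const
  have hmain := hwl {i // i ∈ I} μ A r hr0 hA' (fun i => (hμt i).1) (fun i => (hμt i).2) ?_ G' hG'n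
    (lin 1 α 0 s z)
  · have h1 : Av α s r (fun z' => ∑ i ∈ I, T9h44.LG.sq (Gp m i G) z') z =
        ∑ i ∈ I, Av α s r (T9h44.LG.sq (Gp m i G)) z := by
      unfold Av
      simp_rw [Finset.mul_sum]
      rw [lintegral_finsetSum]
      intro i _
      exact ((measurable_Wt α s r).comp (measurable_const.sub measurable_id)).mul
        (measurable_sq (nice_Gp hG m i))
    rw [h1]
    have h2 : ∀ i ∈ I, Av α s r (T9h44.LG.sq (Gp m i G)) z = ENNReal.ofReal (s ^ 2) *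
        Av 0 1 r (T9h44.LG.sq (fun ζ => (chc (l * qa ζ - ((i : ℝ) - j * l)) * beta0 ζ) * G' ζ))
          (lin 1 α 0 s z) := by
      intro i hi
      rw [Av_fr hs (nice_Gp hG m i)]
      congr 2
      rw [hα, hsdef, Gp_fr hk j i hGs (hI i hi)]
    rw [Finset.sum_congr rfl h2, ← Finset.mul_sum, Av_fr hs (nice_Gw hG k j)]
    rw [← Finset.sum_coe_sort I (fun i => Av 0 1 r (T9h44.LG.sq (fun ζ =>
      (chc (l * qa ζ - ((i : ℝ) - j * l)) * beta0 ζ) * G' ζ)) (lin 1 α 0 s z))]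
    calc ENNReal.ofReal (s ^ 2) * ∑ i : {i // i ∈ I}, Av 0 1 r (T9h44.LG.sq (fun ζ =>
          (chc (l * qa ζ - (((i : ℤ) : ℝ) - j * l)) * beta0 ζ) * G' ζ)) (lin 1 α 0 s z) ≤
        ENNReal.ofReal (s ^ 2) * (ENNReal.ofReal (C * A ^ 2) *
          Av 0 1 r (T9h44.LG.sq G') (lin 1 α 0 s z)) := mul_le_mul' le_rfl hmain
      _ ≤ ENNReal.ofReal (s ^ 2) * (ENNReal.ofReal (C * (A ^ 2 + 1)) *
          Av 0 1 r (T9h44.LG.sq G') (lin 1 α 0 s z)) := by
          refine mul_le_mul' le_rfl (mul_le_mul' (ENNReal.ofReal_le_ofReal ?_) le_rfl)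
          exact mul_le_mul_of_nonneg_left (by linarith) hC.le
      _ = _ := by rw [← mul_assoc, mul_comm (ENNReal.ofReal (s ^ 2)), mul_assoc]
  · intro ζ a ha b hb
    have e1 : ∀ i : {i // i ∈ I}, iteratedDeriv a (fun w : ℝ =>
        iteratedDeriv b (fun ξ : ℝ => μ i (w, ξ)) ζ.2) ζ.1 = (dw^[a] (dx^[b] (μ i))) ζ :=
      fun i => iter_eq (hμt i) a b ζ
    simp_rw [e1]
    have hbd : ∀ i : {i // i ∈ I}, ‖(dw^[a] (dx^[b] (μ i))) ζ‖ ^ 2 ≤
        if |(l * qa ζ + j * l) - ((i : ℤ) : ℝ)| ≤ 1 then (A₀ * 512 ^ 4 * r ^ (a + b)) ^ 2 else 0 := by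
      intro i
      split_ifs with hc
      · refine pow_le_pow_left₀ (norm_nonneg _) ?_ 2
        have h1 := hB a b l (((i : ℤ) : ℝ) - j * l) ζ
        refine h1.trans ?_
        rw [abs_of_nonneg (by linarith : (0 : ℝ) ≤ l)]
        have h2 : 1 + l ≤ 512 * r := by nlinarith
        calc B a b * (1 + l) ^ (a + b) ≤ A₀ * (512 * r) ^ (a + b) :=
              mul_le_mul (hBA a ha b hb) (pow_le_pow_left₀ (by linarith) h2 _) (by positivity) hA0
          _ = A₀ * 512 ^ (a + b) * r ^ (a + b) := by rw [mul_pow]; ring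
          _ ≤ A₀ * 512 ^ 4 * r ^ (a + b) := by
              refine mul_le_mul_of_nonneg_right ?_ (by positivity)
              refine mul_le_mul_of_nonneg_left ?_ hA0
              exact pow_le_pow_right₀ (by norm_num) (by omega)
      · have h1 : (dw^[a] (dx^[b] (μ i))) ζ = 0 := by
          by_contra h
          have h2 := hsup a b l (((i : ℤ) : ℝ) - j * l) ζ h
          refine hc ?_
          rw [show l * qa ζ + j * l - ((i : ℤ) : ℝ) = l * qa ζ - (((i : ℤ) : ℝ) - j * l) by ring]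
          exact h2
        rw [h1]
        simp
    refine (Finset.sum_le_sum fun i _ => hbd i).trans ?_
    rw [Finset.sum_coe_sort I (fun i : ℤ => if |(l * qa ζ + j * l) - (i : ℝ)| ≤ 1 then
      (A₀ * 512 ^ 4 * r ^ (a + b)) ^ 2 else 0)]
    rw [← Finset.sum_filter, Finset.sum_const, nsmul_eq_mul]
    have h3 : (((I.filter fun i : ℤ => |(l * qa ζ + j * l) - (i : ℝ)| ≤ 1).card : ℕ) : ℝ) ≤ 3 := by
      exact_mod_cast count_int I _
    calc (((I.filter fun i : ℤ => |(l * qa ζ + j * l) - (i : ℝ)| ≤ 1).card : ℕ) : ℝ) *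
          (A₀ * 512 ^ 4 * r ^ (a + b)) ^ 2 ≤ 3 * (A₀ * 512 ^ 4 * r ^ (a + b)) ^ 2 :=
          mul_le_mul_of_nonneg_right h3 (by positivity)
      _ ≤ 4 * (A₀ * 512 ^ 4 * r ^ (a + b)) ^ 2 :=
          mul_le_mul_of_nonneg_right (by norm_num) (by positivity)
      _ = (A * r ^ (a + b)) ^ 2 := by rw [hAdef]; ring

end Pool.Agent.T9h31.LG
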