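import Pool.Agent.T9h31.LG.Inv
import Pool.Agent.T9h44.LG.Spec

/-!
# The weighted square function (WL) of `T9h44.LG.Spec` (helper31)
-/

set_option autoImplicit false

namespace Pool.Agent.T9h31.LG

open MeasureTheory Real Pool.Agent.T9h44.LG
open scoped ENNReal ComplexConjugate ContDiff

/-- `((1 + (u/r)²)(1 + (v/r)²))⁻¹` -/
noncomputable def wr (r : ℝ) (u : ℝ × ℝ) : ℝ := (1 + (u.1 / r) ^ 2)⁻¹ * (1 + (u.2 / r) ^ 2)⁻¹

lemma wr_pos (r : ℝ) (u : ℝ × ℝ) : 0 < wr r u := by unfold wr; positivity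

lemma wr_le_one (r : ℝ) (u : ℝ × ℝ) : wr r u ≤ 1 := by
  unfold wr
  have h1 : (1 + (u.1 / r) ^ 2)⁻¹ ≤ 1 := inv_le_one_of_one_le₀ (by nlinarith [sq_nonneg (u.1 / r)])
  have h2 : (1 + (u.2 / r) ^ 2)⁻¹ ≤ 1 := inv_le_one_of_one_le₀ (by nlinarith [sq_nonneg (u.2 / r)])
  exact mul_le_one₀ h1 (by positivity) h2

lemma continuous_wr (r : ℝ) : Continuous (wr r) := by
  unfold wr
  refine Continuous.mul ?_ ?_
  · exact Continuous.inv₀ (by fun_prop) (fun u => by positivity)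
  · exact Continuous.inv₀ (by fun_prop) (fun u => by positivity)

lemma integrable_wr {r : ℝ} (hr : 0 < r) : Integrable (wr r) := by
  have h1 : Integrable (fun x : ℝ => (1 + (x / r) ^ 2)⁻¹) := by
    have := integrable_inv_one_add_sq.comp_div hr.ne'
    exact this
  exact h1.mul_prod h1

/-- the coefficients -/
noncomputable def cf : ℕ → ℝ → ℝ
  | 0, _ => 1
  | 1, t => -2 * t * (1 + t ^ 2)⁻¹
  | _, t => (1 + t ^ 2)⁻¹

lemma cf_le (a : ℕ) (t : ℝ) : |cf a t| ≤ 1 := by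
  have h0 : 0 < 1 + t ^ 2 := by positivity
  match a with
  | 0 => simp [cf]
  | 1 =>
    simp only [cf]
    rw [abs_mul, abs_inv, abs_of_pos h0, ← div_eq_mul_inv, div_le_one h0, abs_mul, abs_neg,
      abs_two]
    nlinarith [sq_nonneg (|t| - 1), sq_abs t]
  | (n + 2) =>
    simp only [cf]
    rw [abs_inv, abs_of_pos h0]
    exact inv_le_one_of_one_le₀ (by nlinarith [sq_nonneg t])

lemma cf_sum (t s : ℝ) : (1 + (t - s) ^ 2) = (1 + t ^ 2) * ∑ a ∈ Finset.range 3, cf a t * s ^ a := by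
  have h0 : (1 + t ^ 2) ≠ 0 := by positivity
  simp only [Finset.sum_range_succ, Finset.sum_range_zero, cf]
  field_simp
  ring

lemma cf_sum2 {r : ℝ} (x y z : ℝ) :
    (1 + ((x - z) / r) ^ 2)⁻¹ * (1 + ((y - z) / r) ^ 2) =
      ∑ a ∈ Finset.range 3, cf a ((x - z) / r) * ((x - y) / r) ^ a := by
  have h := cf_sum ((x - z) / r) ((x - y) / r)
  have h1 : (x - z) / r - (x - y) / r = (y - z) / r := by ring
  rw [h1] at h
  rw [h, ← mul_assoc, inv_mul_cancel₀ (by positivity), one_mul]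

/-- `wr(y - z) = (∑ ...) wr(y' - z)` -/
lemma wr_eq (r : ℝ) (y y' z : ℝ × ℝ) :
    wr r (y - z) = (∑ a ∈ Finset.range 3, ∑ b ∈ Finset.range 3,
      cf a ((y.1 - z.1) / r) * cf b ((y.2 - z.2) / r) *
        (((y.1 - y'.1) / r) ^ a * ((y.2 - y'.2) / r) ^ b)) * wr r (y' - z) := by
  have h1 := cf_sum2 (r := r) y.1 y'.1 z.1
  have h2 := cf_sum2 (r := r) y.2 y'.2 z.2
  have h3 : (∑ a ∈ Finset.range 3, ∑ b ∈ Finset.range 3,
      cf a ((y.1 - z.1) / r) * cf b ((y.2 - z.2) / r) *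
        (((y.1 - y'.1) / r) ^ a * ((y.2 - y'.2) / r) ^ b)) =
      (∑ a ∈ Finset.range 3, cf a ((y.1 - z.1) / r) * ((y.1 - y'.1) / r) ^ a) *
        ∑ b ∈ Finset.range 3, cf b ((y.2 - z.2) / r) * ((y.2 - y'.2) / r) ^ b := by
    rw [Finset.sum_mul_sum]
    refine Finset.sum_congr rfl fun a _ => Finset.sum_congr rfl fun b _ => ?_
    ring
  rw [h3, ← h1, ← h2]
  unfold wr
  simp only [Prod.fst_sub, Prod.snd_sub]
  have h4 : (1 + ((y'.1 - z.1) / r) ^ 2) ≠ 0 := by positivity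
  have h5 : (1 + ((y'.2 - z.2) / r) ^ 2) ≠ 0 := by positivity
  have h6 : (1 + ((y.1 - z.1) / r) ^ 2) ≠ 0 := by positivity
  have h7 : (1 + ((y.2 - z.2) / r) ^ 2) ≠ 0 := by positivity
  calc (1 + ((y.1 - z.1) / r) ^ 2)⁻¹ * (1 + ((y.2 - z.2) / r) ^ 2)⁻¹ =
      (1 + ((y.1 - z.1) / r) ^ 2)⁻¹ * (1 + ((y.2 - z.2) / r) ^ 2)⁻¹ *
        ((1 + ((y'.1 - z.1) / r) ^ 2) * (1 + ((y'.1 - z.1) / r) ^ 2)⁻¹) *
        ((1 + ((y'.2 - z.2) / r) ^ 2) * (1 + ((y'.2 - z.2) / r) ^ 2)⁻¹) := by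
        rw [mul_inv_cancel₀ h4, mul_inv_cancel₀ h5]; ring
    _ = _ := by ring

/-- the Fourier transform of an integrable function -/
noncomputable def ftr (h : ℝ × ℝ → ℂ) (ζ : ℝ × ℝ) : ℂ :=
  ∫ y : ℝ × ℝ, ee (-(ζ.1 * y.1 + ζ.2 * y.2)) * h y

lemma continuous_ftr {h : ℝ × ℝ → ℂ} (h1 : Integrable h) : Continuous (ftr h) := by
  refine continuous_of_dominated (bound := fun ζ => ‖h ζ‖) (fun y => ?_)
    (fun y => Filter.Eventually.of_forall fun z => ?_) h1.norm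
    (Filter.Eventually.of_forall fun z => ?_)
  · refine AEStronglyMeasurable.mul ?_ h1.aestronglyMeasurable
    exact (continuous_ee.comp (by fun_prop)).aestronglyMeasurable
  · rw [norm_mul, norm_ee, one_mul]
  · exact (continuous_ee.comp (by fun_prop)).mul continuous_const

lemma norm_ftr_le {h : ℝ × ℝ → ℂ} (z : ℝ × ℝ) : ‖ftr h z‖ ≤ ∫ ζ, ‖h ζ‖ := by
  unfold ftr
  refine (norm_integral_le_integral_norm _).trans (le_of_eq ?_)
  refine integral_congr_ae (Filter.Eventually.of_forall fun x => ?_)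
  simp only [norm_mul, norm_ee, one_mul]

/-- convolution with `Ext ν` is multiplication with `ν` -/
lemma conv_eq {ν h : ℝ × ℝ → ℂ} (hν : Test ν) (hh : Integrable h) (y : ℝ × ℝ) :
    ∫ y' : ℝ × ℝ, T9h44.LG.Ext ν (y - y') * h y' =
      T9h44.LG.Ext (fun ζ => ν ζ * ftr h ζ) y := by
  have h1 : Integrable (fun p : (ℝ × ℝ) × (ℝ × ℝ) =>
      ee ((y.1 - p.1.1) * p.2.1 + (y.2 - p.1.2) * p.2.2) * ν p.2 * h p.1) := by
    have h2 := hh.mul_prod hν.integrable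
    refine (h2.norm).mono' ?_ ?_
    · refine AEStronglyMeasurable.mul (AEStronglyMeasurable.mul ?_ ?_) ?_
      · exact (continuous_ee.comp (by fun_prop)).aestronglyMeasurable
      · exact (hν.cont.comp continuous_snd).aestronglyMeasurable
      · exact hh.aestronglyMeasurable.comp_fst
    · refine Filter.Eventually.of_forall fun p => ?_
      simp only [norm_mul, norm_ee, one_mul]
      rw [mul_comm]
  have h3 : (∫ y' : ℝ × ℝ, T9h44.LG.Ext ν (y - y') * h y') =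
      ∫ y' : ℝ × ℝ, ∫ ζ : ℝ × ℝ,
        ee ((y.1 - y'.1) * ζ.1 + (y.2 - y'.2) * ζ.2) * ν ζ * h y' := by
    refine integral_congr_ae (Filter.Eventually.of_forall fun y' => ?_)
    simp only
    rw [integral_mul_const]
    rfl
  rw [h3, integral_integral_swap h1]
  unfold T9h44.LG.Ext ftr
  refine integral_congr_ae (Filter.Eventually.of_forall fun ζ => ?_)
  simp only
  rw [← integral_const_mul, ← integral_const_mul]
  refine integral_congr_ae (Filter.Eventually.of_forall fun y' => ?_)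
  simp only
  have h6 : ee ((y.1 - y'.1) * ζ.1 + (y.2 - y'.2) * ζ.2) = ee (y.1 * ζ.1 + y.2 * ζ.2) *
      ee (-(ζ.1 * y'.1 + ζ.2 * y'.2)) := by
    rw [← ee_add]
    congr 1
    ring
  rw [h6]
  ring

lemma nice_mul {ν h : ℝ × ℝ → ℂ} (hν : Test ν) (hh : Integrable h) :
    Nice (fun ζ => ν ζ * ftr h ζ) := by
  obtain ⟨hm, ⟨B, hB⟩, R, hR⟩ := hν.nice
  refine ⟨hm.mul (continuous_ftr hh).measurable, ⟨B * ∫ ζ, ‖h ζ‖, fun ζ => ?_⟩, R, fun ζ hζ => ?_⟩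
  · rw [norm_mul]
    exact mul_le_mul (hB ζ) (norm_ftr_le ζ) (norm_nonneg _) ((norm_nonneg _).trans (hB ζ))
  · exact hR ζ (left_ne_zero_of_mul hζ)

/-- the constant -/
noncomputable def kk (r : ℝ) (n : ℕ) : ℂ := ((-(2 * π * Complex.I) * r) ^ n)⁻¹

lemma norm_kk {r : ℝ} (hr : 0 < r) (n : ℕ) : ‖kk r n‖ = ((2 * π * r) ^ n)⁻¹ := by
  unfold kk
  rw [norm_inv, norm_pow, norm_mul, norm_neg, norm_mul, norm_mul, Complex.norm_I,
    Complex.norm_real, Complex.norm_real]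
  simp only [Complex.norm_ofNat, mul_one, Real.norm_eq_abs]
  rw [abs_of_pos pi_pos, abs_of_pos hr]

lemma Ext_kk {μ : ℝ × ℝ → ℂ} (h : Test μ) {r : ℝ} (hr : 0 < r) (a b : ℕ) (u : ℝ × ℝ) :
    (((u.1 / r) ^ a * (u.2 / r) ^ b : ℝ) : ℂ) * T9h44.LG.Ext μ u =
      kk r (a + b) * T9h44.LG.Ext (dw^[a] (dx^[b] μ)) u := by
  rw [Ext_iter h]
  unfold kk
  have hr' : (r : ℂ) ≠ 0 := by exact_mod_cast hr.ne'
  have hc : (-(2 * π * Complex.I) * r : ℂ) ≠ 0 := by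
    refine mul_ne_zero (neg_ne_zero.2 ?_) hr'
    exact Complex.two_pi_I_ne_zero
  have h1 : (-(2 * π * Complex.I * u.1) : ℂ) = (-(2 * π * Complex.I) * r) * (u.1 / r) := by
    field_simp
  have h2 : (-(2 * π * Complex.I * u.2) : ℂ) = (-(2 * π * Complex.I) * r) * (u.2 / r) := by
    field_simp
  rw [h1, h2, mul_pow, mul_pow, pow_add]
  have hca := pow_ne_zero a hc
  have hcb := pow_ne_zero b hc
  push_cast
  rw [mul_inv]
  calc (↑u.1 / ↑r) ^ a * (↑u.2 / ↑r) ^ b * T9h44.LG.Ext μ u =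
      (((-(2 * ↑π * Complex.I) * ↑r) ^ a)⁻¹ * (-(2 * ↑π * Complex.I) * ↑r) ^ a) *
      (((-(2 * ↑π * Complex.I) * ↑r) ^ b)⁻¹ * (-(2 * ↑π * Complex.I) * ↑r) ^ b) *
      ((↑u.1 / ↑r) ^ a * (↑u.2 / ↑r) ^ b * T9h44.LG.Ext μ u) := by
        rw [inv_mul_cancel₀ hca, inv_mul_cancel₀ hcb]; ring
    _ = _ := by ring

/-- the operator `T^{ab}` -/
noncomputable def Top (r : ℝ) (μ h : ℝ × ℝ → ℂ) (a b : ℕ) (y : ℝ × ℝ) : ℂ :=
  kk r (a + b) * T9h44.LG.Ext (fun ζ => (dw^[a] (dx^[b] μ)) ζ * ftr h ζ) y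

/-- the pointwise identity -/
lemma wr_Ext {μ : ℝ × ℝ → ℂ} (hμ : Test μ) {G : ℝ × ℝ → ℂ} (hG : Nice G) {r : ℝ} (hr : 0 < r)
    (z : ℝ × ℝ) (hh : Integrable fun y' => ((wr r (y' - z) : ℝ) : ℂ) * T9h44.LG.Ext G y')
    (y : ℝ × ℝ) :
    ((wr r (y - z) : ℝ) : ℂ) * T9h44.LG.Ext (fun ζ => μ ζ * G ζ) y =
      ∑ p ∈ Finset.range 3 ×ˢ Finset.range 3,
        ((cf p.1 ((y.1 - z.1) / r) * cf p.2 ((y.2 - z.2) / r) : ℝ) : ℂ) *
          Top r μ (fun y' => ((wr r (y' - z) : ℝ) : ℂ) * T9h44.LG.Ext G y') p.1 p.2 y := by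
  set h : ℝ × ℝ → ℂ := fun y' => ((wr r (y' - z) : ℝ) : ℂ) * T9h44.LG.Ext G y' with hdef
  have h1 : ∀ p : ℕ × ℕ, Top r μ h p.1 p.2 y =
      ∫ y' : ℝ × ℝ, ((((y.1 - y'.1) / r) ^ p.1 * ((y.2 - y'.2) / r) ^ p.2 : ℝ) : ℂ) *
        T9h44.LG.Ext μ (y - y') * h y' := by
    intro p
    unfold Top
    rw [← conv_eq (hμ.iter p.1 p.2) hh, ← integral_const_mul]
    refine integral_congr_ae (Filter.Eventually.of_forall fun y' => ?_)
    simp only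
    have := Ext_kk hμ hr p.1 p.2 (y - y')
    simp only [Prod.fst_sub, Prod.snd_sub] at this
    rw [this]
    ring
  have h2 : ∀ p : ℕ × ℕ, Integrable fun y' : ℝ × ℝ =>
      ((((y.1 - y'.1) / r) ^ p.1 * ((y.2 - y'.2) / r) ^ p.2 : ℝ) : ℂ) *
        T9h44.LG.Ext μ (y - y') * h y' := by
    intro p
    have h3 : (fun y' : ℝ × ℝ => ((((y.1 - y'.1) / r) ^ p.1 * ((y.2 - y'.2) / r) ^ p.2 : ℝ) : ℂ) *
        T9h44.LG.Ext μ (y - y') * h y') = fun y' =>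
        (kk r (p.1 + p.2) * T9h44.LG.Ext (dw^[p.1] (dx^[p.2] μ)) (y - y')) * h y' := by
      ext y'
      have := Ext_kk hμ hr p.1 p.2 (y - y')
      simp only [Prod.fst_sub, Prod.snd_sub] at this
      rw [this]
    rw [h3]
    refine hh.bdd_mul (c := ‖kk r (p.1 + p.2)‖ * ∫ ζ, ‖(dw^[p.1] (dx^[p.2] μ)) ζ‖) ?_ ?_
    · exact (continuous_const.mul ((continuous_Ext (hμ.iter p.1 p.2).nice).comp
        (by fun_prop))).aestronglyMeasurable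
    · refine Filter.Eventually.of_forall fun y' => ?_
      rw [norm_mul]
      exact mul_le_mul_of_nonneg_left (norm_Ext_le _) (norm_nonneg _)
  rw [Ext_mul hμ hG, ← integral_const_mul]
  simp_rw [h1]
  have h4 : ∀ p : ℕ × ℕ, ((cf p.1 ((y.1 - z.1) / r) * cf p.2 ((y.2 - z.2) / r) : ℝ) : ℂ) *
      ∫ y' : ℝ × ℝ, ((((y.1 - y'.1) / r) ^ p.1 * ((y.2 - y'.2) / r) ^ p.2 : ℝ) : ℂ) *
        T9h44.LG.Ext μ (y - y') * h y' =
      ∫ y' : ℝ × ℝ, ((cf p.1 ((y.1 - z.1) / r) * cf p.2 ((y.2 - z.2) / r) : ℝ) : ℂ) *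
        (((((y.1 - y'.1) / r) ^ p.1 * ((y.2 - y'.2) / r) ^ p.2 : ℝ) : ℂ) *
        T9h44.LG.Ext μ (y - y') * h y') := fun p => by rw [integral_const_mul]
  simp_rw [h4]
  rw [← integral_finsetSum _ (fun p _ => (h2 p).const_mul _)]
  refine integral_congr_ae (Filter.Eventually.of_forall fun y' => ?_)
  simp only
  rw [wr_eq r y y' z, Finset.sum_product]
  simp only [hdef]
  push_cast
  simp only [Finset.sum_mul]
  refine Finset.sum_congr rfl fun a _ => Finset.sum_congr rfl fun b _ => ?_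
  ring

lemma enorm_sq_ofReal (x : ℂ) : ‖x‖ₑ ^ 2 = ENNReal.ofReal (‖x‖ ^ 2) := by
  rw [← ofReal_norm, ENNReal.ofReal_pow (norm_nonneg _)]

/-- Cauchy-Schwarz for the nine terms -/
lemma nine {c x : ℕ × ℕ → ℂ} (hc : ∀ p, ‖c p‖ ≤ 1) :
    ‖∑ p ∈ Finset.range 3 ×ˢ Finset.range 3, c p * x p‖ₑ ^ 2 ≤
      9 * ∑ p ∈ Finset.range 3 ×ˢ Finset.range 3, ‖x p‖ₑ ^ 2 := by
  have h1 : ‖∑ p ∈ Finset.range 3 ×ˢ Finset.range 3, c p * x p‖ ^ 2 ≤
      9 * ∑ p ∈ Finset.range 3 ×ˢ Finset.range 3, ‖x p‖ ^ 2 := by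
    have h2 : ‖∑ p ∈ Finset.range 3 ×ˢ Finset.range 3, c p * x p‖ ≤
        ∑ p ∈ Finset.range 3 ×ˢ Finset.range 3, ‖x p‖ := by
      refine (norm_sum_le _ _).trans (Finset.sum_le_sum fun p _ => ?_)
      rw [norm_mul]
      exact mul_le_of_le_one_left (norm_nonneg _) (hc p)
    refine (pow_le_pow_left₀ (norm_nonneg _) h2 2).trans ?_
    have h3 := sq_sum_le_card_mul_sum_sq (s := Finset.range 3 ×ˢ Finset.range 3)
      (f := fun p => ‖x p‖)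
    simpa using h3
  rw [enorm_sq_ofReal]
  refine (ENNReal.ofReal_le_ofReal h1).trans (le_of_eq ?_)
  rw [ENNReal.ofReal_mul (by norm_num), ENNReal.ofReal_sum_of_nonneg (fun p _ => by positivity)]
  simp only [enorm_sq_ofReal]
  norm_num

/-- the estimate for the operators -/
lemma Top_sum {ι : Type} [Fintype ι] {μ : ι → ℝ × ℝ → ℂ} (hμ : ∀ i, Test (μ i)) {A r : ℝ}
    (hr : 0 < r) {h : ℝ × ℝ → ℂ} (h1 : Integrable h) (h2 : MemLp h 2) (a b : ℕ)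
    (hA : ∀ ζ : ℝ × ℝ, ∑ i, ‖(dw^[a] (dx^[b] (μ i))) ζ‖ ^ 2 ≤ (A * r ^ (a + b)) ^ 2) :
    ∑ i, ∫⁻ y : ℝ × ℝ, ‖Top r (μ i) h a b y‖ₑ ^ 2 ≤ ENNReal.ofReal (A ^ 2) * ∫⁻ y, ‖h y‖ₑ ^ 2 := by
  have e1 : ∀ i, ∫⁻ y : ℝ × ℝ, ‖Top r (μ i) h a b y‖ₑ ^ 2 =
      ∫⁻ ζ : ℝ × ℝ, ENNReal.ofReal (‖kk r (a + b)‖ ^ 2 * ‖(dw^[a] (dx^[b] (μ i))) ζ‖ ^ 2) *
        ‖ftr h ζ‖ₑ ^ 2 := by
    intro i
    have hn := nice_mul ((hμ i).iter a b) h1
    unfold Top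
    simp only [enorm_mul, mul_pow]
    rw [lintegral_const_mul' _ _ (by finiteness), planch_Ext hn,
      ← lintegral_const_mul' _ _ (by finiteness)]
    refine lintegral_congr fun ζ => ?_
    rw [ENNReal.ofReal_mul (by positivity), ← enorm_sq_ofReal, ← enorm_sq_ofReal]
    simp only [enorm_mul, mul_pow]
    ring
  simp_rw [e1]
  have e2 : ∫⁻ y, ‖h y‖ₑ ^ 2 = ∫⁻ ζ, ‖ftr h ζ‖ₑ ^ 2 := (planch2' h h1 h2).symm
  rw [e2]
  have hm : ∀ i, Measurable fun ζ : ℝ × ℝ =>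
      ENNReal.ofReal (‖kk r (a + b)‖ ^ 2 * ‖(dw^[a] (dx^[b] (μ i))) ζ‖ ^ 2) * ‖ftr h ζ‖ₑ ^ 2 := by
    intro i
    have m1 : Measurable fun ζ : ℝ × ℝ =>
        ENNReal.ofReal (‖kk r (a + b)‖ ^ 2 * ‖(dw^[a] (dx^[b] (μ i))) ζ‖ ^ 2) := by
      refine Measurable.ennreal_ofReal ?_
      exact (continuous_const.mul (((hμ i).iter a b).cont.norm.pow 2)).measurable
    exact m1.mul ((continuous_ftr h1).measurable.enorm.pow_const 2)
  rw [← lintegral_finsetSum _ (fun i _ => hm i), ← lintegral_const_mul' _ _ (by finiteness)]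
  refine lintegral_mono fun ζ => ?_
  simp only
  rw [← Finset.sum_mul]
  refine mul_le_mul' ?_ le_rfl
  rw [← ENNReal.ofReal_sum_of_nonneg (fun i _ => by positivity), ← Finset.mul_sum]
  refine ENNReal.ofReal_le_ofReal ?_
  rw [norm_kk hr]
  have hp : (1 : ℝ) ≤ 2 * π := by linarith [Real.pi_gt_three]
  have hpp : (1 : ℝ) ≤ (2 * π) ^ (a + b) := one_le_pow₀ hp
  have hrr : 0 < r ^ (a + b) := by positivity
  calc (((2 * π * r) ^ (a + b))⁻¹) ^ 2 * ∑ i, ‖(dw^[a] (dx^[b] (μ i))) ζ‖ ^ 2 ≤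
      (((2 * π * r) ^ (a + b))⁻¹) ^ 2 * (A * r ^ (a + b)) ^ 2 :=
        mul_le_mul_of_nonneg_left (hA ζ) (by positivity)
    _ = A ^ 2 * (((2 * π) ^ (a + b))⁻¹) ^ 2 := by
        rw [mul_pow (2 * π) r]
        field_simp
    _ ≤ A ^ 2 * 1 := by
        refine mul_le_mul_of_nonneg_left ?_ (by positivity)
        exact pow_le_one₀ (by positivity) (inv_le_one_of_one_le₀ hpp)
    _ = A ^ 2 := mul_one _

/-- the average is a weighted norm -/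
lemma Av_eq {r : ℝ} (hr : 0 < r) (G : ℝ × ℝ → ℂ) (z : ℝ × ℝ) :
    Av 0 1 r (sq G) z =
      ENNReal.ofReal (1 / r ^ 2) * ∫⁻ y, ‖((wr r (y - z) : ℝ) : ℂ) * T9h44.LG.Ext G y‖ₑ ^ 2 := by
  unfold Av T9h44.LG.sq
  rw [← lintegral_const_mul' _ _ (by finiteness)]
  refine lintegral_congr fun y => ?_
  rw [enorm_mul, mul_pow, ← mul_assoc, enorm_sq_ofReal ((wr r (y - z) : ℝ) : ℂ),
    ← ENNReal.ofReal_mul (by positivity)]
  congr 2
  rw [Complex.norm_real, Real.norm_eq_abs, sq_abs]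
  unfold Wt om wr
  simp only [Prod.fst_sub, Prod.snd_sub]
  have e1 : ((z.1 - y.1 + 0 * (z.2 - y.2)) / r) ^ 2 = ((y.1 - z.1) / r) ^ 2 := by ring
  have e2 : (1 * (z.2 - y.2) / r) ^ 2 = ((y.2 - z.2) / r) ^ 2 := by ring
  rw [e1, e2, mul_pow, inv_pow, inv_pow]

theorem s_wl : S_wl := by
  refine ⟨81, by norm_num, ?_⟩
  intro ι _ μ A r hr hA hsm hcs hder G hG z
  have hμ : ∀ i, Test (μ i) := fun i => ⟨hsm i, hcs i⟩
  have hGi := Nice.integrable hG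
  set h : ℝ × ℝ → ℂ := fun y' => ((wr r (y' - z) : ℝ) : ℂ) * T9h44.LG.Ext G y' with hdef
  have hcont : Continuous h := by
    refine Continuous.mul ?_ (continuous_Ext hG)
    exact Complex.continuous_ofReal.comp ((continuous_wr r).comp (by fun_prop))
  have hwi : Integrable (fun y' : ℝ × ℝ => ((wr r (y' - z) : ℝ) : ℂ)) :=
    ((integrable_wr hr).comp_sub_right z).ofReal
  have hh1 : Integrable h := by
    have := hwi.bdd_mul (f := T9h44.LG.Ext G) (c := ∫ ζ, ‖G ζ‖)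
      (continuous_Ext hG).aestronglyMeasurable (Filter.Eventually.of_forall fun y => norm_Ext_le y)
    refine this.congr (Filter.Eventually.of_forall fun y => ?_)
    simp only [hdef]
    ring
  have hbd : ∀ y, ‖h y‖ ≤ ∫ ζ, ‖G ζ‖ := by
    intro y
    simp only [hdef]
    rw [norm_mul, Complex.norm_real, Real.norm_eq_abs, abs_of_pos (wr_pos _ _)]
    calc wr r (y - z) * ‖T9h44.LG.Ext G y‖ ≤ 1 * ∫ ζ, ‖G ζ‖ :=
          mul_le_mul (wr_le_one _ _) (norm_Ext_le y) (norm_nonneg _) zero_le_one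
      _ = _ := one_mul _
  have hh2 : MemLp h 2 := by
    rw [memLp_two_iff hcont.aestronglyMeasurable]
    have hb : ∀ ζ, ‖h ζ‖ₑ ^ 2 ≤ ENNReal.ofReal (∫ ζ, ‖G ζ‖) * ‖h ζ‖ₑ := by
      intro ζ
      rw [pow_two]
      refine mul_le_mul' ?_ le_rfl
      rw [← ofReal_norm]
      exact ENNReal.ofReal_le_ofReal (hbd ζ)
    refine lt_of_le_of_lt (lintegral_mono hb) ?_
    rw [lintegral_const_mul' _ _ (by finiteness)]
    exact ENNReal.mul_lt_top ENNReal.ofReal_lt_top hh1.2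
  have hdc : ∀ (i : ι) (a b : ℕ), Continuous (Top r (μ i) h a b) := by
    intro i a b
    exact continuous_const.mul (continuous_Ext (nice_mul ((hμ i).iter a b) hh1))
  simp_rw [Av_eq hr]
  rw [← Finset.mul_sum, mul_left_comm]
  refine mul_le_mul' le_rfl ?_
  have key : ∀ i, ∫⁻ y, ‖((wr r (y - z) : ℝ) : ℂ) * T9h44.LG.Ext (fun ζ => μ i ζ * G ζ) y‖ₑ ^ 2 ≤
      9 * ∑ p ∈ Finset.range 3 ×ˢ Finset.range 3, ∫⁻ y, ‖Top r (μ i) h p.1 p.2 y‖ₑ ^ 2 := by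
    intro i
    have e1 : ∀ y, ‖((wr r (y - z) : ℝ) : ℂ) * T9h44.LG.Ext (fun ζ => μ i ζ * G ζ) y‖ₑ ^ 2 ≤
        9 * ∑ p ∈ Finset.range 3 ×ˢ Finset.range 3, ‖Top r (μ i) h p.1 p.2 y‖ₑ ^ 2 := by
      intro y
      rw [wr_Ext (hμ i) hG hr z hh1 y]
      refine nine (c := fun p => ((cf p.1 ((y.1 - z.1) / r) * cf p.2 ((y.2 - z.2) / r) : ℝ) : ℂ))
        (fun p => ?_)
      rw [Complex.norm_real, Real.norm_eq_abs, abs_mul]
      exact mul_le_one₀ (cf_le _ _) (abs_nonneg _) (cf_le _ _)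
    refine (lintegral_mono e1).trans (le_of_eq ?_)
    rw [lintegral_const_mul' _ _ (by finiteness), lintegral_finsetSum]
    intro p _
    exact (hdc i p.1 p.2).measurable.enorm.pow_const 2
  calc ∑ i, ∫⁻ y, ‖((wr r (y - z) : ℝ) : ℂ) * T9h44.LG.Ext (fun ζ => μ i ζ * G ζ) y‖ₑ ^ 2 ≤
      ∑ i, 9 * ∑ p ∈ Finset.range 3 ×ˢ Finset.range 3, ∫⁻ y, ‖Top r (μ i) h p.1 p.2 y‖ₑ ^ 2 :=
        Finset.sum_le_sum fun i _ => key i
    _ = 9 * ∑ p ∈ Finset.range 3 ×ˢ Finset.range 3, ∑ i, ∫⁻ y, ‖Top r (μ i) h p.1 p.2 y‖ₑ ^ 2 := by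
        rw [← Finset.mul_sum, Finset.sum_comm]
    _ ≤ 9 * ∑ p ∈ Finset.range 3 ×ˢ Finset.range 3, ENNReal.ofReal (A ^ 2) * ∫⁻ y, ‖h y‖ₑ ^ 2 := by
        refine mul_le_mul' le_rfl (Finset.sum_le_sum fun p hp => ?_)
        rw [Finset.mem_product, Finset.mem_range, Finset.mem_range] at hp
        refine Top_sum hμ hr hh1 hh2 p.1 p.2 fun ζ => ?_
        have h3 := hder ζ p.1 (by omega) p.2 (by omega)
        refine le_trans (le_of_eq ?_) h3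
        refine Finset.sum_congr rfl fun i _ => ?_
        rw [iter_eq (hμ i)]
    _ = ENNReal.ofReal (81 * A ^ 2) * ∫⁻ y, ‖h y‖ₑ ^ 2 := by
        rw [Finset.sum_const, Finset.card_product, Finset.card_range, nsmul_eq_mul, ← mul_assoc,
          ← mul_assoc, ENNReal.ofReal_mul (by norm_num)]
        norm_num

end Pool.Agent.T9h31.LG
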